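import Mathlib

/-!
# A tree space

Branches, weights and the norm `sup (∑ v(S_i)^4)^{1/4}`.
-/

set_option autoImplicit false

open Finset Filter Topology

namespace Pool.Agent.Q178.WM

/-- Branches: sequences of exponents. -/
def Br : Type := {x : ℕ → ℕ // (∀ i, x i ≤ i + 1) ∧ ∀ n, ∑ i ∈ range n, (1 / 4 : ℝ) ^ (x i) ≤ 2}

/-- The weight of the node of level `i` on the branch `x`. -/
noncomputable def w (x : Br) (i : ℕ) : ℝ := (1 / 2 : ℝ) ^ (x.1 i)

theorem w_pos (x : Br) (i : ℕ) : 0 < w x i := by unfold w; positivity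

theorem w_sq (x : Br) (i : ℕ) : w x i ^ 2 = (1 / 4 : ℝ) ^ (x.1 i) := by
  unfold w; rw [← pow_mul, mul_comm, pow_mul]; norm_num

theorem w_lower (x : Br) (i : ℕ) : (1 / 2 : ℝ) ^ (i + 1) ≤ w x i :=
  pow_le_pow_of_le_one (by norm_num) (by norm_num) (x.2.1 i)

/-- The sum of the squares of the weights over a segment. -/
noncomputable def S2 (x : Br) (m n : ℕ) : ℝ := ∑ i ∈ Ico m n, w x i ^ 2

theorem S2_nonneg (x : Br) (m n : ℕ) : 0 ≤ S2 x m n := sum_nonneg fun _ _ => by positivity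

theorem S2_range (x : Br) (n : ℕ) : ∑ i ∈ range n, w x i ^ 2 ≤ 2 := by
  simp only [w_sq]
  exact x.2.2 n

theorem S2_le (x : Br) (m n : ℕ) : S2 x m n ≤ 2 := by
  refine (sum_le_sum_of_subset_of_nonneg (t := range n) ?_ fun _ _ _ => by positivity).trans
    (S2_range x n)
  intro i hi
  rw [mem_Ico] at hi
  exact mem_range.2 hi.2

theorem S2_pos {x : Br} {m n : ℕ} (h : m < n) : 0 < S2 x m n :=
  sum_pos (fun _ _ => by have := w_pos x (by assumption); positivity) ⟨m, by simp [h]⟩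

section

variable {𝕜 : Type} [RCLike 𝕜]

/-- The weighted sum of `h` over a segment. -/
noncomputable def A (x : Br) (m n : ℕ) (h : Br → ℕ → 𝕜) : ℝ := ∑ i ∈ Ico m n, w x i * ‖h x i‖

theorem A_nonneg (x : Br) (m n : ℕ) (h : Br → ℕ → 𝕜) : 0 ≤ A x m n h :=
  sum_nonneg fun i _ => mul_nonneg (w_pos x i).le (norm_nonneg _)

theorem A_empty {x : Br} {m n : ℕ} (hmn : n ≤ m) (h : Br → ℕ → 𝕜) : A x m n h = 0 := by
  unfold A; rw [Ico_eq_empty_of_le hmn]; simp

theorem A_mono {x : Br} {m n : ℕ} {g h : Br → ℕ → 𝕜} (H : ∀ i, m ≤ i → i < n → ‖g x i‖ ≤ ‖h x i‖) :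
    A x m n g ≤ A x m n h :=
  sum_le_sum fun i hi => mul_le_mul_of_nonneg_left (H i (mem_Ico.1 hi).1 (mem_Ico.1 hi).2)
    (w_pos x i).le

theorem A_zero {x : Br} {m n : ℕ} {h : Br → ℕ → 𝕜} (H : ∀ i, m ≤ i → i < n → h x i = 0) :
    A x m n h = 0 :=
  sum_eq_zero fun i hi => by rw [H i (mem_Ico.1 hi).1 (mem_Ico.1 hi).2]; simp

theorem A_add (x : Br) (m n : ℕ) (g h : Br → ℕ → 𝕜) :
    A x m n (fun x i => g x i + h x i) ≤ A x m n g + A x m n h := by
  unfold A
  rw [← sum_add_distrib]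
  refine sum_le_sum fun i _ => ?_
  rw [← mul_add]
  exact mul_le_mul_of_nonneg_left (norm_add_le _ _) (w_pos x i).le

/-- The normalized weighted sum over a segment. -/
noncomputable def v (x : Br) (m n : ℕ) (h : Br → ℕ → 𝕜) : ℝ := A x m n h / √(S2 x m n)

theorem v_nonneg (x : Br) (m n : ℕ) (h : Br → ℕ → 𝕜) : 0 ≤ v x m n h :=
  div_nonneg (A_nonneg _ _ _ _) (Real.sqrt_nonneg _)

theorem v_le_of {x : Br} {m n : ℕ} {h : Br → ℕ → 𝕜} {C : ℝ} (hC : 0 ≤ C)
    (H : A x m n h ≤ C * √(S2 x m n)) : v x m n h ≤ C := by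
  unfold v
  rcases (Real.sqrt_nonneg (S2 x m n)).eq_or_lt with h0 | h0
  · rw [← h0]; simpa using hC
  · rwa [div_le_iff₀ h0]

theorem A_le_of {x : Br} {m n : ℕ} {h : Br → ℕ → 𝕜} {C : ℝ} (H : v x m n h ≤ C) :
    A x m n h ≤ C * √(S2 x m n) := by
  unfold v at H
  rcases lt_or_ge m n with hmn | hmn
  · rwa [div_le_iff₀ (Real.sqrt_pos.2 (S2_pos hmn))] at H
  · rw [A_empty hmn]
    unfold S2
    rw [Ico_eq_empty_of_le hmn]
    simp

/-- Segments. -/
abbrev Seg : Type := Br × ℕ × ℕ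

/-- Successive families of segments. -/
def Good (l : List Seg) : Prop := l.Pairwise fun s t => s.2.2 ≤ t.2.1

/-- The sum of the fourth powers over a family. -/
noncomputable def tot (h : Br → ℕ → 𝕜) (l : List Seg) : ℝ :=
  (l.map fun s => (v s.1 s.2.1 s.2.2 h) ^ 4).sum

theorem list_sum_le {α : Type} {l : List α} {f g : α → ℝ} (H : ∀ s ∈ l, f s ≤ g s) :
    (l.map f).sum ≤ (l.map g).sum := List.sum_le_sum H

theorem list_sum_nonneg {α : Type} {l : List α} {f : α → ℝ} (H : ∀ s ∈ l, 0 ≤ f s) :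
    0 ≤ (l.map f).sum := by
  refine List.sum_nonneg ?_
  intro x hx
  rw [List.mem_map] at hx
  obtain ⟨s, hs, rfl⟩ := hx
  exact H s hs

theorem tot_nonneg (h : Br → ℕ → 𝕜) (l : List Seg) : 0 ≤ tot h l :=
  list_sum_nonneg fun s _ => by have := v_nonneg s.1 s.2.1 s.2.2 h; positivity

theorem tot_le {g h : Br → ℕ → 𝕜} (H : ∀ x i, ‖g x i‖ ≤ ‖h x i‖) (l : List Seg) :
    tot g l ≤ tot h l := by
  refine list_sum_le fun s _ => pow_le_pow_left₀ (v_nonneg _ _ _ _) ?_ 4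
  exact div_le_div_of_nonneg_right (A_mono fun i _ _ => H _ _) (Real.sqrt_nonneg _)

theorem mink {a b A B : ℝ} (ha : 0 ≤ a) (hb : 0 ≤ b) (hA : 0 < A) (hB : 0 < B) :
    (a + b) ^ 4 ≤ (A + B) ^ 3 * (a ^ 4 / A ^ 3 + b ^ 4 / B ^ 3) := by
  have hc := (convexOn_pow (𝕜 := ℝ) 4).2 (show a / A ∈ Set.Ici (0 : ℝ) by simp; positivity)
    (show b / B ∈ Set.Ici (0 : ℝ) by simp; positivity)
    (show 0 ≤ A / (A + B) by positivity) (show 0 ≤ B / (A + B) by positivity)
    (by field_simp)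
  simp only [smul_eq_mul] at hc
  have h1 : A / (A + B) * (a / A) + B / (A + B) * (b / B) = (a + b) / (A + B) := by
    field_simp
  rw [h1, div_pow, div_pow, div_pow] at hc
  have hAB : 0 < (A + B) ^ 4 := by positivity
  rw [div_le_iff₀ hAB] at hc
  refine hc.trans (le_of_eq ?_)
  field_simp

theorem tot_add {g h : Br → ℕ → 𝕜} {C D : ℝ} (hC : 0 < C) (hD : 0 < D) {l : List Seg}
    (h1 : tot g l ≤ C ^ 4) (h2 : tot h l ≤ D ^ 4) :
    tot (fun x i => g x i + h x i) l ≤ (C + D) ^ 4 := by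
  have hstep : tot (fun x i => g x i + h x i) l ≤
      (l.map fun s => (C + D) ^ 3 * ((v s.1 s.2.1 s.2.2 g) ^ 4 / C ^ 3 +
        (v s.1 s.2.1 s.2.2 h) ^ 4 / D ^ 3)).sum := by
    refine list_sum_le fun s _ => ?_
    refine le_trans ?_ (mink (v_nonneg _ _ _ _) (v_nonneg _ _ _ _) hC hD)
    refine pow_le_pow_left₀ (v_nonneg _ _ _ _) ?_ 4
    unfold v
    rw [← add_div]
    exact div_le_div_of_nonneg_right (A_add _ _ _ _ _) (Real.sqrt_nonneg _)
  refine hstep.trans ?_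
  rw [List.sum_map_mul_left, List.sum_map_add]
  simp only [div_eq_mul_inv]
  rw [List.sum_map_mul_right, List.sum_map_mul_right]
  have e1 : (l.map fun s => (v s.1 s.2.1 s.2.2 g) ^ 4).sum * (C ^ 3)⁻¹ ≤ C := by
    rw [← div_eq_mul_inv, div_le_iff₀ (by positivity)]
    calc _ ≤ C ^ 4 := h1
      _ = C * C ^ 3 := by ring
  have e2 : (l.map fun s => (v s.1 s.2.1 s.2.2 h) ^ 4).sum * (D ^ 3)⁻¹ ≤ D := by
    rw [← div_eq_mul_inv, div_le_iff₀ (by positivity)]
    calc _ ≤ D ^ 4 := h2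
      _ = D * D ^ 3 := by ring
  calc (C + D) ^ 3 * _ ≤ (C + D) ^ 3 * (C + D) :=
        mul_le_mul_of_nonneg_left (add_le_add e1 e2) (by positivity)
    _ = (C + D) ^ 4 := by ring

theorem tot_smul (c : 𝕜) (h : Br → ℕ → 𝕜) (l : List Seg) :
    tot (fun x i => c * h x i) l = ‖c‖ ^ 4 * tot h l := by
  unfold tot
  rw [← List.sum_map_mul_left]
  congr 1
  refine List.map_congr_left fun s _ => ?_
  have : A s.1 s.2.1 s.2.2 (fun x i => c * h x i) = ‖c‖ * A s.1 s.2.1 s.2.2 h := by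
    unfold A
    rw [mul_sum]
    refine sum_congr rfl fun i _ => ?_
    rw [norm_mul]; ring
  unfold v
  rw [this]
  ring

/-- In a successive family at most one segment contains a given level. -/
theorem count_le {l : List Seg} (hl : Good l) (a : ℕ) :
    (l.map fun s => if s.2.1 ≤ a ∧ a < s.2.2 then (1 : ℝ) else 0).sum ≤ 1 := by
  induction l with
  | nil => simp
  | cons s l ih =>
    rw [List.map_cons, List.sum_cons]
    have hp := List.pairwise_cons.1 hl
    by_cases hs : s.2.1 ≤ a ∧ a < s.2.2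
    · rw [if_pos hs]
      have h0 : (l.map fun s => if s.2.1 ≤ a ∧ a < s.2.2 then (1 : ℝ) else 0).sum = 0 := by
        refine List.sum_eq_zero ?_
        intro z hz
        rw [List.mem_map] at hz
        obtain ⟨t, ht, rfl⟩ := hz
        rw [if_neg]
        intro h
        have := hp.1 t ht
        omega
      rw [h0]; norm_num
    · rw [if_neg hs, zero_add]
      exact ih hp.2

/-- Consistency: the value at a node depends only on the node. -/
def Cons (h : Br → ℕ → 𝕜) : Prop := ∀ x y : Br, ∀ i, (∀ j ≤ i, x.1 j = y.1 j) → h x i = h y i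

end

end Pool.Agent.Q178.WM
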