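import Pool.Agent.Q178.WM.A

/-!
# The tree space is a Banach space
-/

set_option autoImplicit false

open Finset Filter Topology

namespace Pool.Agent.Q178.WM

section

variable {𝕜 : Type} [RCLike 𝕜]

theorem exists_pow_bound (C : ℝ) : ∃ c : ℝ, 0 < c ∧ C ≤ c ^ 4 := by
  refine ⟨max 1 C, lt_max_of_lt_left one_pos, ?_⟩
  calc C ≤ max 1 C := le_max_right _ _
    _ = max 1 C ^ 1 := (pow_one _).symm
    _ ≤ max 1 C ^ 4 := pow_le_pow_right₀ (le_max_left _ _) (by norm_num)

variable (𝕜) in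
/-- The tree space as a subspace of all functions. -/
def sub : Submodule 𝕜 (Br → ℕ → 𝕜) where
  carrier := {h | Cons h ∧ ∃ C : ℝ, ∀ l, Good l → tot h l ≤ C}
  add_mem' := by
    rintro g h ⟨hg, C, hC⟩ ⟨hh, D, hD⟩
    obtain ⟨c, hc, hc'⟩ := exists_pow_bound C
    obtain ⟨d, hd, hd'⟩ := exists_pow_bound D
    refine ⟨fun x y i H => ?_, (c + d) ^ 4, fun l hl => ?_⟩
    · show g x i + h x i = g y i + h y i
      rw [hg x y i H, hh x y i H]
    · exact tot_add hc hd ((hC l hl).trans hc') ((hD l hl).trans hd')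
  zero_mem' := by
    refine ⟨fun x y i _ => rfl, 0, fun l _ => ?_⟩
    unfold tot v A
    simp
  smul_mem' := by
    rintro c h ⟨hh, C, hC⟩
    refine ⟨fun x y i H => ?_, ‖c‖ ^ 4 * C, fun l hl => ?_⟩
    · show c * h x i = c * h y i
      rw [hh x y i H]
    · refine (tot_smul c h l).le.trans ?_
      exact mul_le_mul_of_nonneg_left (hC l hl) (by positivity)

variable (𝕜) in
/-- The tree space. -/
def Esp : Type := sub 𝕜

instance : AddCommGroup (Esp 𝕜) := inferInstanceAs (AddCommGroup (sub 𝕜))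
instance : Module 𝕜 (Esp 𝕜) := inferInstanceAs (Module 𝕜 (sub 𝕜))

/-- The underlying function. -/
def Esp.f (h : Esp 𝕜) : Br → ℕ → 𝕜 := h.1

theorem Esp.cons (h : Esp 𝕜) : Cons h.f := h.2.1

theorem Esp.bdd (h : Esp 𝕜) : ∃ C : ℝ, ∀ l, Good l → tot h.f l ≤ C := h.2.2

theorem Esp.ext' {g h : Esp 𝕜} (H : ∀ x i, g.f x i = h.f x i) : g = h :=
  Subtype.ext (funext fun x => funext fun i => H x i)

@[simp] theorem f_add (g h : Esp 𝕜) (x : Br) (i : ℕ) : (g + h).f x i = g.f x i + h.f x i := rfl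
@[simp] theorem f_sub (g h : Esp 𝕜) (x : Br) (i : ℕ) : (g - h).f x i = g.f x i - h.f x i := rfl
@[simp] theorem f_neg (g : Esp 𝕜) (x : Br) (i : ℕ) : (-g).f x i = - g.f x i := rfl
@[simp] theorem f_zero (x : Br) (i : ℕ) : (0 : Esp 𝕜).f x i = 0 := rfl
@[simp] theorem f_smul (c : 𝕜) (g : Esp 𝕜) (x : Br) (i : ℕ) : (c • g).f x i = c * g.f x i := rfl

/-- The evaluation at a node as a linear map. -/
def evalₗ (x : Br) (i : ℕ) : Esp 𝕜 →ₗ[𝕜] 𝕜 where
  toFun h := h.f x i
  map_add' _ _ := rfl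
  map_smul' _ _ := rfl

theorem f_sum {ι : Type} (s : Finset ι) (g : ι → Esp 𝕜) (x : Br) (i : ℕ) :
    (∑ j ∈ s, g j).f x i = ∑ j ∈ s, (g j).f x i :=
  map_sum (evalₗ x i) g s

noncomputable instance : Norm (Esp 𝕜) :=
  ⟨fun h => √√(sSup (tot h.f '' {l | Good l}))⟩

theorem norm_def (h : Esp 𝕜) : ‖h‖ = √√(sSup (tot h.f '' {l | Good l})) := rfl

theorem norm_le_iff' (h : Esp 𝕜) {C : ℝ} (hC : 0 ≤ C) :
    ‖h‖ ≤ C ↔ ∀ l, Good l → tot h.f l ≤ C ^ 4 := by
  have hb : BddAbove (tot h.f '' {l | Good l}) := by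
    obtain ⟨D, hD⟩ := h.bdd
    refine ⟨D, ?_⟩
    rintro _ ⟨l, hl, rfl⟩
    exact hD l hl
  have hne : (tot h.f '' {l | Good l}).Nonempty := ⟨_, [], List.Pairwise.nil, rfl⟩
  rw [norm_def, Real.sqrt_le_left hC, Real.sqrt_le_left (by positivity), csSup_le_iff hb hne]
  constructor
  · intro H l hl
    have := H _ ⟨l, hl, rfl⟩
    calc tot h.f l ≤ (C ^ 2) ^ 2 := this
      _ = C ^ 4 := by ring
  · rintro H _ ⟨l, hl, rfl⟩
    calc tot h.f l ≤ C ^ 4 := H l hl
      _ = (C ^ 2) ^ 2 := by ring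

theorem norm_nonneg' (h : Esp 𝕜) : 0 ≤ ‖h‖ := Real.sqrt_nonneg _

theorem tot_le_norm' (h : Esp 𝕜) {l : List Seg} (hl : Good l) : tot h.f l ≤ ‖h‖ ^ 4 :=
  (norm_le_iff' h (norm_nonneg' h)).1 le_rfl l hl

theorem v_single (x : Br) (i : ℕ) (h : Br → ℕ → 𝕜) : v x i (i + 1) h = ‖h x i‖ := by
  unfold v A S2
  simp only [Nat.Ico_succ_singleton, sum_singleton]
  rw [Real.sqrt_sq (w_pos x i).le]
  have := w_pos x i
  field_simp

theorem v_le_norm' (h : Esp 𝕜) (x : Br) (m n : ℕ) : v x m n h.f ≤ ‖h‖ := by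
  have h1 := tot_le_norm' h (l := [(x, m, n)]) (List.pairwise_singleton _ _)
  simp only [tot, List.map_cons, List.map_nil, List.sum_cons, List.sum_nil, add_zero] at h1
  exact le_of_pow_le_pow_left₀ (by norm_num) (norm_nonneg' h) h1

theorem apply_le_norm' (h : Esp 𝕜) (x : Br) (i : ℕ) : ‖h.f x i‖ ≤ ‖h‖ := by
  rw [← v_single]; exact v_le_norm' h x i (i + 1)

theorem norm_core : NormedSpace.Core 𝕜 (Esp 𝕜) := by
  have hsm : ∀ (c : 𝕜) (h : Esp 𝕜), ‖c • h‖ ≤ ‖c‖ * ‖h‖ := by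
    intro c h
    rw [norm_le_iff' _ (mul_nonneg (norm_nonneg _) (norm_nonneg' _))]
    intro l hl
    refine (tot_smul c h.f l).le.trans ?_
    rw [mul_pow]
    exact mul_le_mul_of_nonneg_left (tot_le_norm' h hl) (by positivity)
  refine
    { norm_nonneg := norm_nonneg'
      norm_smul := ?_
      norm_triangle := ?_
      norm_eq_zero_iff := ?_ }
  · intro c h
    rcases eq_or_ne c 0 with rfl | hc
    · rw [zero_smul, norm_zero, zero_mul]
      refine le_antisymm ?_ (norm_nonneg' _)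
      have := hsm 0 h
      rwa [zero_smul, norm_zero, zero_mul] at this
    · refine le_antisymm (hsm c h) ?_
      have := hsm c⁻¹ (c • h)
      rw [smul_smul, inv_mul_cancel₀ hc, one_smul, norm_inv] at this
      have hc' : 0 < ‖c‖ := norm_pos_iff.2 hc
      calc ‖c‖ * ‖h‖ ≤ ‖c‖ * (‖c‖⁻¹ * ‖c • h‖) := mul_le_mul_of_nonneg_left this hc'.le
        _ = ‖c • h‖ := by field_simp
  · intro g h
    refine le_of_forall_pos_le_add fun ε hε => ?_
    have h1 : 0 < ‖g‖ + ε / 2 := by have := norm_nonneg' g; positivity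
    have h2 : 0 < ‖h‖ + ε / 2 := by have := norm_nonneg' h; positivity
    have h3 : ‖g + h‖ ≤ (‖g‖ + ε / 2) + (‖h‖ + ε / 2) := by
      rw [norm_le_iff' _ (by positivity)]
      intro l hl
      refine tot_add h1 h2 ?_ ?_
      · exact (tot_le_norm' g hl).trans (pow_le_pow_left₀ (norm_nonneg' _) (by linarith) 4)
      · exact (tot_le_norm' h hl).trans (pow_le_pow_left₀ (norm_nonneg' _) (by linarith) 4)
    linarith
  · intro h
    constructor
    · intro h0
      refine Esp.ext' fun x i => ?_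
      have := apply_le_norm' h x i
      rw [h0] at this
      simpa using this
    · rintro rfl
      refine le_antisymm ?_ (norm_nonneg' _)
      rw [norm_le_iff' _ le_rfl]
      intro l _
      unfold tot v A
      simp

noncomputable instance : NormedAddCommGroup (Esp 𝕜) := NormedAddCommGroup.ofCore norm_core
noncomputable instance : NormedSpace 𝕜 (Esp 𝕜) := NormedSpace.ofCore norm_core

theorem norm_le_iff (h : Esp 𝕜) {C : ℝ} (hC : 0 ≤ C) :
    ‖h‖ ≤ C ↔ ∀ l, Good l → tot h.f l ≤ C ^ 4 := norm_le_iff' h hC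

theorem tot_le_norm (h : Esp 𝕜) {l : List Seg} (hl : Good l) : tot h.f l ≤ ‖h‖ ^ 4 :=
  tot_le_norm' h hl

theorem v_le_norm (h : Esp 𝕜) (x : Br) (m n : ℕ) : v x m n h.f ≤ ‖h‖ := v_le_norm' h x m n

theorem apply_le_norm (h : Esp 𝕜) (x : Br) (i : ℕ) : ‖h.f x i‖ ≤ ‖h‖ := apply_le_norm' h x i

theorem A_le_norm (h : Esp 𝕜) (x : Br) (m n : ℕ) : A x m n h.f ≤ ‖h‖ * √(S2 x m n) :=
  A_le_of (v_le_norm h x m n)

theorem tendsto_tot {ι : Type} {F : Filter ι} {g : ι → Br → ℕ → 𝕜} {h : Br → ℕ → 𝕜}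
    (H : ∀ x i, Tendsto (fun n => g n x i) F (𝓝 (h x i))) (l : List Seg) :
    Tendsto (fun n => tot (g n) l) F (𝓝 (tot h l)) := by
  unfold tot
  induction l with
  | nil => simpa using tendsto_const_nhds
  | cons s l ih =>
    simp only [List.map_cons, List.sum_cons]
    refine Tendsto.add ?_ ih
    refine Tendsto.pow ?_ 4
    unfold v
    refine Tendsto.div_const ?_ _
    unfold A
    exact tendsto_finsetSum _ fun i _ => ((H s.1 i).norm).const_mul _

instance : CompleteSpace (Esp 𝕜) := by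
  refine Metric.complete_of_cauchySeq_tendsto fun u hu => ?_
  have hlim : ∀ x i, ∃ z : 𝕜, Tendsto (fun n => (u n).f x i) atTop (𝓝 z) := by
    intro x i
    refine cauchySeq_tendsto_of_complete ?_
    rw [Metric.cauchySeq_iff'] at hu ⊢
    intro ε hε
    obtain ⟨N, hN⟩ := hu ε hε
    refine ⟨N, fun n hn => ?_⟩
    have := hN n hn
    rw [dist_eq_norm] at this ⊢
    exact (apply_le_norm (u n - u N) x i).trans_lt this
  choose f hf using hlim
  have key : ∀ ε > 0, ∃ N, ∀ n ≥ N, ∀ l, Good l →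
      tot (fun x i => (u n).f x i - f x i) l ≤ ε ^ 4 := by
    intro ε hε
    rw [Metric.cauchySeq_iff] at hu
    obtain ⟨N, hN⟩ := hu ε hε
    refine ⟨N, fun n hn l hl => ?_⟩
    refine le_of_tendsto (tendsto_tot (g := fun m x i => (u n).f x i - (u m).f x i)
      (fun x i => (hf x i).const_sub _) l) ?_
    filter_upwards [eventually_ge_atTop N] with m hm
    have := hN n hn m hm
    rw [dist_eq_norm] at this
    exact (norm_le_iff (u n - u m) hε.le).1 this.le l hl
  have hcons : Cons f := by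
    intro x y i H
    refine tendsto_nhds_unique (hf x i) ?_
    have : (fun n => (u n).f x i) = fun n => (u n).f y i := funext fun n => (u n).cons x y i H
    rw [this]
    exact hf y i
  obtain ⟨N, hN⟩ := key 1 one_pos
  have hmem : (fun x i => (u N).f x i - f x i) ∈ sub 𝕜 := by
    refine ⟨fun x y i H => ?_, 1, fun l hl => ?_⟩
    · show (u N).f x i - f x i = (u N).f y i - f y i
      rw [(u N).cons x y i H, hcons x y i H]
    · have := hN N le_rfl l hl
      simpa using this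
  let d : Esp 𝕜 := ⟨_, hmem⟩
  refine ⟨u N - d, ?_⟩
  have hfd : ∀ x i, (u N - d).f x i = f x i := by
    intro x i
    show (u N).f x i - ((u N).f x i - f x i) = f x i
    ring
  rw [Metric.tendsto_atTop]
  intro ε hε
  obtain ⟨M, hM⟩ := key (ε / 2) (by positivity)
  refine ⟨M, fun n hn => ?_⟩
  rw [dist_eq_norm]
  refine lt_of_le_of_lt ?_ (half_lt_self hε)
  rw [norm_le_iff _ (by positivity)]
  intro l hl
  have e : (u n - (u N - d)).f = fun x i => (u n).f x i - f x i := by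
    funext x i
    rw [f_sub, hfd]
  rw [e]
  exact hM n hn l hl

end

end Pool.Agent.Q178.WM
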