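import Pool.Agent.Q178.WM.B

/-!
# Restrictions, tails, small initial parts
-/

set_option autoImplicit false

open Finset Filter Topology

namespace Pool.Agent.Q178.WM

section

variable {𝕜 : Type} [RCLike 𝕜]

/-- Predicates of nodes. -/
def ConsP (W : Br → ℕ → Prop) : Prop :=
  ∀ x y : Br, ∀ i, (∀ j ≤ i, x.1 j = y.1 j) → (W x i ↔ W y i)

/-- A function dominated by an element of the space. -/
def dom (h : Esp 𝕜) (g : Br → ℕ → 𝕜) (hc : Cons g) (hd : ∀ x i, ‖g x i‖ ≤ ‖h.f x i‖) : Esp 𝕜 :=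
  ⟨g, hc, by obtain ⟨C, hC⟩ := h.bdd; exact ⟨C, fun l hl => (tot_le hd l).trans (hC l hl)⟩⟩

@[simp] theorem dom_f (h : Esp 𝕜) (g : Br → ℕ → 𝕜) (hc : Cons g)
    (hd : ∀ x i, ‖g x i‖ ≤ ‖h.f x i‖) (x : Br) (i : ℕ) : (dom h g hc hd).f x i = g x i := rfl

theorem norm_le_norm {g h : Esp 𝕜} (H : ∀ x i, ‖g.f x i‖ ≤ ‖h.f x i‖) : ‖g‖ ≤ ‖h‖ := by
  rw [norm_le_iff _ (norm_nonneg _)]
  exact fun l hl => (tot_le H l).trans (tot_le_norm h hl)

open Classical in
/-- Restriction to a set of nodes. -/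
noncomputable def res (W : Br → ℕ → Prop) (hW : ConsP W) (h : Esp 𝕜) : Esp 𝕜 :=
  dom h (fun x i => if W x i then h.f x i else 0)
    (by
      intro x y i H
      by_cases hx : W x i
      · simp only [if_pos hx, if_pos ((hW x y i H).1 hx), h.cons x y i H]
      · simp only [if_neg hx, if_neg (fun hy => hx ((hW x y i H).2 hy))])
    (by
      intro x i
      split_ifs
      · exact le_rfl
      · rw [norm_zero]; exact norm_nonneg _)

theorem res_pos {W : Br → ℕ → Prop} (hW : ConsP W) (h : Esp 𝕜) {x : Br} {i : ℕ} (H : W x i) :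
    (res W hW h).f x i = h.f x i := by
  exact if_pos H

theorem res_neg {W : Br → ℕ → Prop} (hW : ConsP W) (h : Esp 𝕜) {x : Br} {i : ℕ} (H : ¬ W x i) :
    (res W hW h).f x i = 0 := by
  exact if_neg H

theorem norm_res_le {W : Br → ℕ → Prop} (hW : ConsP W) (h : Esp 𝕜) : ‖res W hW h‖ ≤ ‖h‖ := by
  refine norm_le_norm fun x i => ?_
  by_cases H : W x i
  · rw [res_pos hW h H]
  · rw [res_neg hW h H, norm_zero]; exact norm_nonneg _

theorem consP_lev (P : ℕ → Prop) : ConsP fun _ i => P i := fun _ _ _ _ => Iff.rfl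

theorem A_single {x : Br} {m n a : ℕ} {h : Br → ℕ → 𝕜} (h1 : m ≤ a) (h2 : a < n)
    (H : ∀ i, i ≠ a → h x i = 0) : A x m n h = w x a * ‖h x a‖ := by
  unfold A
  refine sum_eq_single_of_mem a (mem_Ico.2 ⟨h1, h2⟩) fun i _ hi => ?_
  rw [H i hi]; simp

theorem le_sqrt_S2 {x : Br} {m n a : ℕ} (h1 : m ≤ a) (h2 : a < n) : w x a ≤ √(S2 x m n) := by
  rw [← Real.sqrt_sq (w_pos x a).le]
  refine Real.sqrt_le_sqrt ?_
  exact single_le_sum (f := fun i => w x i ^ 2) (fun i _ => by positivity) (mem_Ico.2 ⟨h1, h2⟩)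

theorem tot_level_le {h : Br → ℕ → 𝕜} {a : ℕ} {η : ℝ} (hη : 0 ≤ η)
    (h0 : ∀ x i, i ≠ a → h x i = 0) (h1 : ∀ x, ‖h x a‖ ≤ η) {l : List Seg} (hl : Good l) :
    tot h l ≤ η ^ 4 := by
  have key : tot h l ≤
      (l.map fun s => η ^ 4 * (if s.2.1 ≤ a ∧ a < s.2.2 then (1 : ℝ) else 0)).sum := by
    refine list_sum_le fun s _ => ?_
    split_ifs with hs
    · rw [mul_one]
      refine pow_le_pow_left₀ (v_nonneg _ _ _ _) (v_le_of hη ?_) 4
      rw [A_single hs.1 hs.2 fun i hi => h0 s.1 i hi, mul_comm]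
      exact mul_le_mul (h1 _) (le_sqrt_S2 hs.1 hs.2) (w_pos _ _).le hη
    · have : A s.1 s.2.1 s.2.2 h = 0 := by
        refine A_zero fun i hi1 hi2 => h0 _ _ ?_
        rintro rfl
        exact hs ⟨hi1, hi2⟩
      unfold v
      rw [this]
      simp
  refine key.trans ?_
  rw [List.sum_map_mul_left]
  have := count_le hl a
  calc η ^ 4 * _ ≤ η ^ 4 * 1 := mul_le_mul_of_nonneg_left this (by positivity)
    _ = η ^ 4 := mul_one _

theorem norm_level_le {h : Esp 𝕜} {a : ℕ} {η : ℝ} (hη : 0 ≤ η) (h0 : ∀ x i, i ≠ a → h.f x i = 0)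
    (h1 : ∀ x, ‖h.f x a‖ ≤ η) : ‖h‖ ≤ η := by
  rw [norm_le_iff _ hη]
  intro l hl
  exact tot_level_le hη h0 h1 hl

/-- Small initial parts. -/
theorem norm_init_le {h : Esp 𝕜} {M : ℕ} {η : ℝ} (hη : 0 ≤ η)
    (h1 : ∀ x, ∀ i < M, ‖h.f x i‖ ≤ η) :
    ‖res (fun _ i => i < M) (consP_lev _) h‖ ≤ M * η := by
  have e : res (fun _ i => i < M) (consP_lev _) h =
      ∑ a ∈ range M, res (fun _ i => i = a) (consP_lev _) h := by
    refine Esp.ext' fun x i => ?_
    rw [f_sum]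
    by_cases hi : i < M
    · rw [res_pos _ _ hi, sum_eq_single_of_mem i (mem_range.2 hi), res_pos _ _ rfl]
      intro a _ ha
      exact res_neg _ _ (Ne.symm ha)
    · rw [res_neg _ _ hi, sum_eq_zero]
      intro a ha
      refine res_neg _ _ ?_
      rintro rfl
      exact hi (mem_range.1 ha)
  rw [e]
  refine (norm_sum_le _ _).trans ?_
  calc ∑ a ∈ range M, ‖res (fun _ i => i = a) (consP_lev _) h‖ ≤ ∑ a ∈ range M, η := by
        refine sum_le_sum fun a ha => norm_level_le (a := a) hη ?_ ?_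
        · intro x i hi
          exact res_neg _ _ hi
        · intro x
          rw [res_pos _ _ rfl]
          exact h1 x a (mem_range.1 ha)
    _ = M * η := by simp

theorem S2_anti {x : Br} {a b n : ℕ} (h : b ≤ a) : S2 x a n ≤ S2 x b n := by
  refine sum_le_sum_of_subset_of_nonneg ?_ fun _ _ _ => by positivity
  exact Ico_subset_Ico_left h

theorem A_res_ge {x : Br} {m n M : ℕ} (h : Esp 𝕜) :
    A x m n (res (fun _ i => M ≤ i) (consP_lev _) h).f = A x (max m M) n h.f := by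
  unfold A
  have hf : Ico (max m M) n = (Ico m n).filter fun i => M ≤ i := by
    ext i; simp only [mem_Ico, mem_filter, max_le_iff]; tauto
  rw [hf, sum_filter]
  refine sum_congr rfl fun i _ => ?_
  split_ifs with hi
  · rw [res_pos _ _ hi]
  · rw [res_neg _ _ hi]; simp

/-- Tails tend to zero. -/
theorem tail_small (h : Esp 𝕜) {δ : ℝ} (hδ : 0 < δ) :
    ∃ M : ℕ, ∀ M' ≥ M, ‖res (fun _ i => M' ≤ i) (consP_lev _) h‖ ≤ δ := by
  have hb : BddAbove (tot h.f '' {l | Good l}) := by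
    refine ⟨‖h‖ ^ 4, ?_⟩
    rintro _ ⟨l, hl, rfl⟩
    exact tot_le_norm h hl
  have hne : (tot h.f '' {l | Good l}).Nonempty := ⟨_, [], List.Pairwise.nil, rfl⟩
  have hlt : sSup (tot h.f '' {l | Good l}) - δ ^ 4 < sSup (tot h.f '' {l | Good l}) := by
    have : 0 < δ ^ 4 := by positivity
    linarith
  obtain ⟨_, ⟨l, hl, rfl⟩, hlP⟩ := exists_lt_of_lt_csSup hne hlt
  refine ⟨(l.map fun s => s.2.2).sum, fun M' hM' => ?_⟩
  have hlM : ∀ s ∈ l, s.2.2 ≤ M' := by
    intro s hs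
    refine le_trans ?_ hM'
    exact List.single_le_sum (fun _ _ => Nat.zero_le _) _ (List.mem_map_of_mem hs)
  rw [norm_le_iff _ hδ.le]
  intro l' hl'
  let clip : Seg → Seg := fun s => (s.1, max s.2.1 M', s.2.2)
  have hgood : Good (l ++ l'.map clip) := by
    unfold Good
    rw [List.pairwise_append]
    refine ⟨hl, ?_, ?_⟩
    · rw [List.pairwise_map]
      exact hl'.imp fun {s t} hst => hst.trans (le_max_left _ _)
    · intro s hs t ht
      rw [List.mem_map] at ht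
      obtain ⟨t', _, rfl⟩ := ht
      exact (hlM s hs).trans (le_max_right _ _)
  have h1 : tot h.f (l ++ l'.map clip) ≤ sSup (tot h.f '' {l | Good l}) :=
    le_csSup hb ⟨_, hgood, rfl⟩
  have h2 : tot h.f (l ++ l'.map clip) = tot h.f l + tot h.f (l'.map clip) := by
    unfold tot
    rw [List.map_append, List.sum_append]
  have h3 : tot (res (fun _ i => M' ≤ i) (consP_lev _) h).f l' ≤ tot h.f (l'.map clip) := by
    unfold tot
    rw [List.map_map]
    refine list_sum_le fun s _ => ?_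
    refine pow_le_pow_left₀ (v_nonneg _ _ _ _) (v_le_of (v_nonneg _ _ _ _) ?_) 4
    rw [A_res_ge]
    refine (A_le_of le_rfl).trans ?_
    exact mul_le_mul_of_nonneg_left (Real.sqrt_le_sqrt (S2_anti (le_max_left _ _)))
      (v_nonneg _ _ _ _)
  linarith

end

end Pool.Agent.Q178.WM
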