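import Pool.Agent.Q178.WM.C

/-!
# Sums of blocks
-/

set_option autoImplicit false

open Finset Filter Topology

namespace Pool.Agent.Q178.WM

section

variable {𝕜 : Type} [RCLike 𝕜]

theorem list_sum_finset {α : Type} (l : List α) (N : ℕ) (F : ℕ → α → ℝ) :
    (l.map fun s => ∑ k ∈ range N, F k s).sum = ∑ k ∈ range N, (l.map (F k)).sum := by
  induction l with
  | nil => simp
  | cons s l ih => simp only [List.map_cons, List.sum_cons, ih, sum_add_distrib]

theorem A_comb_le {g : ℕ → Esp 𝕜} {c : ℕ → 𝕜} (hc : ∀ k, ‖c k‖ ≤ 1) (x : Br) (m n : ℕ) (N : ℕ) :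
    A x m n (∑ k ∈ range N, c k • g k).f ≤ ∑ k ∈ range N, A x m n (g k).f := by
  induction N with
  | zero =>
    rw [sum_range_zero, sum_range_zero]
    exact (A_zero fun i _ _ => f_zero x i).le
  | succ N ih =>
    rw [sum_range_succ, sum_range_succ]
    refine (A_add x m n _ _).trans (add_le_add ih ?_)
    refine A_mono fun i _ _ => ?_
    show ‖c N * (g N).f x i‖ ≤ _
    rw [norm_mul]
    exact mul_le_of_le_one_left (norm_nonneg _) (hc N)

/-- Sums of blocks: the norm is at most `(N (C^4 + B^4))^{1/4}`. -/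
theorem block_sum {a : ℕ → ℕ} (ha : StrictMono a) {g : ℕ → Esp 𝕜} {C B : ℝ} (hC : 0 ≤ C)
    (hB : 0 ≤ B) (hg : ∀ k, ‖g k‖ ≤ C)
    (hs1 : ∀ k x i, i < a k → (g k).f x i = 0) (hs2 : ∀ k x i, a (k + 1) ≤ i → (g k).f x i = 0)
    {c : ℕ → 𝕜} (hc : ∀ k, ‖c k‖ ≤ 1) (N : ℕ)
    (hA : ∀ x m n, A x m n (∑ k ∈ range N, c k • g k).f ≤ B * √(S2 x m n))
    {l : List Seg} (hl : Good l) :
    tot (∑ k ∈ range N, c k • g k).f l ≤ N * (C ^ 4 + B ^ 4) := by
  have key : ∀ s : Seg, (v s.1 s.2.1 s.2.2 (∑ k ∈ range N, c k • g k).f) ^ 4 ≤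
      ∑ k ∈ range N, ((v s.1 s.2.1 s.2.2 (g k).f) ^ 4 +
        B ^ 4 * (if s.2.1 ≤ a k ∧ a k < s.2.2 then (1 : ℝ) else 0)) := by
    rintro ⟨x, m, n⟩
    dsimp only
    have hterm : ∀ k ∈ range N, 0 ≤ (v x m n (g k).f) ^ 4 +
        B ^ 4 * (if m ≤ a k ∧ a k < n then (1 : ℝ) else 0) := by
      intro k _
      have := v_nonneg x m n (g k).f
      split_ifs <;> positivity
    by_cases hcross : ∃ k < N, m < a k ∧ a k < n
    · obtain ⟨k, hk, h1, h2⟩ := hcross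
      refine le_trans ?_ (single_le_sum hterm (mem_range.2 hk))
      rw [if_pos ⟨h1.le, h2⟩, mul_one]
      have h3 : v x m n (∑ k ∈ range N, c k • g k).f ≤ B := v_le_of hB (hA x m n)
      have h4 := pow_le_pow_left₀ (v_nonneg _ _ _ _) h3 4
      have h5 : 0 ≤ (v x m n (g k).f) ^ 4 := by
        have := v_nonneg x m n (g k).f
        positivity
      linarith
    · by_cases hall : ∀ k < N, A x m n (g k).f = 0
      · have h0 : A x m n (∑ k ∈ range N, c k • g k).f = 0 := by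
          refine le_antisymm ((A_comb_le hc x m n N).trans ?_) (A_nonneg _ _ _ _)
          rw [sum_eq_zero fun k hk => hall k (mem_range.1 hk)]
        have : v x m n (∑ k ∈ range N, c k • g k).f = 0 := by unfold v; rw [h0]; simp
        rw [this]
        simpa using sum_nonneg hterm
      · push Not at hall
        obtain ⟨k, hk, hkA⟩ := hall
        have hpt : ∀ k, A x m n (g k).f ≠ 0 → ∃ i, m ≤ i ∧ i < n ∧ a k ≤ i ∧ i < a (k + 1) := by
          intro k hk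
          by_contra hcon
          push Not at hcon
          refine hk (A_zero fun i h1 h2 => ?_)
          by_cases h3 : i < a k
          · exact hs1 k x i h3
          · exact hs2 k x i (hcon i h1 h2 (not_lt.1 h3))
        have hone : ∀ k' ∈ range N, k' ≠ k → A x m n (g k').f = 0 := by
          intro k' hk' hne
          by_contra hA'
          obtain ⟨i, hi1, hi2, hi3, hi4⟩ := hpt k hkA
          obtain ⟨i', hi1', hi2', hi3', hi4'⟩ := hpt k' hA'
          rw [mem_range] at hk'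
          rcases lt_or_gt_of_ne hne with h | h
          · exact hcross ⟨k, hk, lt_of_le_of_lt hi1' (lt_of_lt_of_le hi4' (ha.monotone h)),
              lt_of_le_of_lt hi3 hi2⟩
          · exact hcross ⟨k', hk', lt_of_le_of_lt hi1 (lt_of_lt_of_le hi4 (ha.monotone h)),
              lt_of_le_of_lt hi3' hi2'⟩
        have hle : A x m n (∑ k ∈ range N, c k • g k).f ≤ A x m n (g k).f := by
          refine (A_comb_le hc x m n N).trans ?_
          rw [sum_eq_single_of_mem k (mem_range.2 hk) hone]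
        have hv : v x m n (∑ k ∈ range N, c k • g k).f ≤ v x m n (g k).f :=
          div_le_div_of_nonneg_right hle (Real.sqrt_nonneg _)
        refine le_trans ?_ (single_le_sum hterm (mem_range.2 hk))
        have h4 := pow_le_pow_left₀ (v_nonneg _ _ _ _) hv 4
        have h5 : 0 ≤ B ^ 4 * (if m ≤ a k ∧ a k < n then (1 : ℝ) else 0) := by
          split_ifs <;> positivity
        linarith
  have h1 : tot (∑ k ∈ range N, c k • g k).f l ≤
      (l.map fun s => ∑ k ∈ range N, ((v s.1 s.2.1 s.2.2 (g k).f) ^ 4 +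
        B ^ 4 * (if s.2.1 ≤ a k ∧ a k < s.2.2 then (1 : ℝ) else 0))).sum :=
    list_sum_le fun s _ => key s
  refine h1.trans ?_
  rw [list_sum_finset]
  calc _ ≤ ∑ k ∈ range N, (C ^ 4 + B ^ 4) := by
        refine sum_le_sum fun k _ => ?_
        rw [List.sum_map_add, List.sum_map_mul_left]
        have e1 := (tot_le_norm (g k) hl).trans (pow_le_pow_left₀ (norm_nonneg _) (hg k) 4)
        have e2 := mul_le_mul_of_nonneg_left (count_le hl (a k)) (show 0 ≤ B ^ 4 by positivity)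
        rw [mul_one] at e2
        exact add_le_add e1 e2
    _ = N * (C ^ 4 + B ^ 4) := by rw [sum_const, card_range, nsmul_eq_mul]

end

/-- Choosing signs in an inner product space. -/
theorem exists_signs (𝕜 : Type) [RCLike 𝕜] {H : Type} [NormedAddCommGroup H]
    [InnerProductSpace 𝕜 H] (u : ℕ → H) (N : ℕ) :
    ∃ c : ℕ → 𝕜, (∀ k, ‖c k‖ ≤ 1) ∧ ∑ k ∈ range N, ‖u k‖ ^ 2 ≤ ‖∑ k ∈ range N, c k • u k‖ ^ 2 := by
  induction N with
  | zero => exact ⟨fun _ => 1, fun _ => by simp, by simp⟩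
  | succ N ih =>
    obtain ⟨c, hc, hN⟩ := ih
    set s := ∑ k ∈ range N, c k • u k with hs
    have hpar := parallelogram_law_with_norm 𝕜 s (u N)
    have hupd : ∀ z : 𝕜, ∑ k ∈ range (N + 1), Function.update c N z k • u k = s + z • u N := by
      intro z
      rw [sum_range_succ, Function.update_self, hs]
      congr 1
      refine sum_congr rfl fun k hk => ?_
      rw [Function.update_of_ne (ne_of_lt (mem_range.1 hk))]
    have hb : ∀ z : 𝕜, ‖z‖ ≤ 1 → ∀ k, ‖Function.update c N z k‖ ≤ 1 := by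
      intro z hz k
      rcases eq_or_ne k N with rfl | h
      · rw [Function.update_self]; exact hz
      · rw [Function.update_of_ne h]; exact hc k
    by_cases h : ‖s‖ ^ 2 + ‖u N‖ ^ 2 ≤ ‖s + u N‖ ^ 2
    · refine ⟨Function.update c N 1, hb 1 (by simp), ?_⟩
      rw [hupd, one_smul, sum_range_succ]
      linarith
    · refine ⟨Function.update c N (-1), hb (-1) (by simp), ?_⟩
      rw [hupd, neg_one_smul, ← sub_eq_add_neg, sum_range_succ]
      push Not at h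
      nlinarith

section

variable {𝕜 : Type} [RCLike 𝕜] {H : Type} [NormedAddCommGroup H] [InnerProductSpace 𝕜 H]

/-- Blocks with a common bound for the single segments cannot have large images in a Hilbert
space. -/
theorem contra (T : Esp 𝕜 →L[𝕜] H) {a : ℕ → ℕ} (ha : StrictMono a) {g : ℕ → Esp 𝕜} {C B ε : ℝ}
    (hC : 0 ≤ C) (hB : 0 ≤ B) (hε : 0 < ε) (hg : ∀ k, ‖g k‖ ≤ C)
    (hs1 : ∀ k x i, i < a k → (g k).f x i = 0) (hs2 : ∀ k x i, a (k + 1) ≤ i → (g k).f x i = 0)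
    (hA : ∀ N, ∀ c : ℕ → 𝕜, (∀ k, ‖c k‖ ≤ 1) → ∀ x m n,
      A x m n (∑ k ∈ range N, c k • g k).f ≤ B * √(S2 x m n))
    (hT : ∀ k, ε ≤ ‖T (g k)‖) : False := by
  obtain ⟨N, hN⟩ := exists_nat_gt (‖T‖ ^ 4 * (C ^ 4 + B ^ 4) / ε ^ 4)
  obtain ⟨c, hc, hcN⟩ := exists_signs 𝕜 (fun k => T (g k)) N
  set G := ∑ k ∈ range N, c k • g k with hG
  have hTG : T G = ∑ k ∈ range N, c k • T (g k) := by
    rw [hG, map_sum]; exact sum_congr rfl fun k _ => map_smul _ _ _
  have hK : 0 ≤ (N : ℝ) * (C ^ 4 + B ^ 4) := by positivity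
  have h1 : ‖G‖ ≤ √√((N : ℝ) * (C ^ 4 + B ^ 4)) := by
    rw [norm_le_iff _ (Real.sqrt_nonneg _)]
    intro l hl
    have h4 : √√((N : ℝ) * (C ^ 4 + B ^ 4)) ^ 4 = (N : ℝ) * (C ^ 4 + B ^ 4) := by
      calc √√((N : ℝ) * (C ^ 4 + B ^ 4)) ^ 4 = (√√((N : ℝ) * (C ^ 4 + B ^ 4)) ^ 2) ^ 2 := by ring
        _ = _ := by rw [Real.sq_sqrt (Real.sqrt_nonneg _), Real.sq_sqrt hK]
    rw [h4]
    exact block_sum ha hC hB hg hs1 hs2 hc N (hA N c hc) hl
  have h2 : ‖G‖ ^ 4 ≤ (N : ℝ) * (C ^ 4 + B ^ 4) := by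
    calc ‖G‖ ^ 4 ≤ √√((N : ℝ) * (C ^ 4 + B ^ 4)) ^ 4 := pow_le_pow_left₀ (norm_nonneg _) h1 4
      _ = (√√((N : ℝ) * (C ^ 4 + B ^ 4)) ^ 2) ^ 2 := by ring
      _ = _ := by rw [Real.sq_sqrt (Real.sqrt_nonneg _), Real.sq_sqrt hK]
  have h3 : (N : ℝ) * ε ^ 2 ≤ ‖T G‖ ^ 2 := by
    rw [hTG]
    refine le_trans ?_ hcN
    calc (N : ℝ) * ε ^ 2 = ∑ k ∈ range N, ε ^ 2 := by simp
      _ ≤ _ := sum_le_sum fun k _ => pow_le_pow_left₀ hε.le (hT k) 2
  have h4 : ‖T G‖ ^ 4 ≤ ‖T‖ ^ 4 * ‖G‖ ^ 4 := by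
    rw [← mul_pow]
    exact pow_le_pow_left₀ (norm_nonneg _) (T.le_opNorm G) 4
  have h5 : ((N : ℝ) * ε ^ 2) ^ 2 ≤ ‖T‖ ^ 4 * ((N : ℝ) * (C ^ 4 + B ^ 4)) := by
    calc ((N : ℝ) * ε ^ 2) ^ 2 ≤ (‖T G‖ ^ 2) ^ 2 := pow_le_pow_left₀ (by positivity) h3 2
      _ = ‖T G‖ ^ 4 := by ring
      _ ≤ ‖T‖ ^ 4 * ‖G‖ ^ 4 := h4
      _ ≤ _ := mul_le_mul_of_nonneg_left h2 (by positivity)
  rw [div_lt_iff₀ (by positivity)] at hN
  have hNpos : (0 : ℝ) < N := by
    rcases Nat.eq_zero_or_pos N with h | h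
    · rw [h] at hN
      have : 0 ≤ ‖T‖ ^ 4 * (C ^ 4 + B ^ 4) := by positivity
      simp at hN
      linarith
    · exact_mod_cast h
  have h6 : (N : ℝ) * (‖T‖ ^ 4 * (C ^ 4 + B ^ 4)) < N * (N * ε ^ 4) :=
    mul_lt_mul_of_pos_left hN hNpos
  nlinarith

end

end Pool.Agent.Q178.WM
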