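import Pool.Agent.Q178.WM.D

/-!
# Bounded operators into Hilbert spaces are small on blocks
-/

set_option autoImplicit false

open Finset Filter Topology

namespace Pool.Agent.Q178.WM

section

variable {𝕜 : Type} [RCLike 𝕜]

theorem S2_congr {x y : Br} {i : ℕ} (M : ℕ) (H : ∀ j ≤ i, x.1 j = y.1 j) :
    S2 x M (i + 1) = S2 y M (i + 1) := by
  unfold S2 w
  refine sum_congr rfl fun l hl => ?_
  rw [H l (by have := (mem_Ico.1 hl).2; omega)]

theorem consP_hi (r : ℝ) (M : ℕ) : ConsP fun x i => r < S2 x M (i + 1) := by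
  intro x y i H
  dsimp only
  rw [S2_congr M H]

theorem consP_lo (r : ℝ) (M : ℕ) : ConsP fun x i => S2 x M (i + 1) ≤ r := by
  intro x y i H
  dsimp only
  rw [S2_congr M H]

theorem hi_add_lo (r : ℝ) (M : ℕ) (h : Esp 𝕜) :
    res _ (consP_hi r M) h + res _ (consP_lo r M) h = h := by
  refine Esp.ext' fun x i => ?_
  rw [f_add]
  by_cases hx : r < S2 x M (i + 1)
  · rw [res_pos _ _ hx, res_neg _ _ (by simpa using hx), add_zero]
  · rw [res_neg _ _ hx, res_pos _ _ (by simpa using hx), zero_add]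

theorem res_eq_zero {W : Br → ℕ → Prop} (hW : ConsP W) (h : Esp 𝕜) {x : Br} {i : ℕ}
    (H : h.f x i = 0) : (res W hW h).f x i = 0 := by
  by_cases hx : W x i
  · rw [res_pos hW h hx, H]
  · rw [res_neg hW h hx]

theorem comb_zero {g : ℕ → Esp 𝕜} {c : ℕ → 𝕜} {N : ℕ} {x : Br} {i : ℕ}
    (H : ∀ k < N, (g k).f x i = 0) : (∑ k ∈ range N, c k • g k).f x i = 0 := by
  rw [f_sum]
  refine sum_eq_zero fun k hk => ?_
  rw [f_smul, H k (mem_range.1 hk), mul_zero]

theorem sum_S2 {a : ℕ → ℕ} (ha : StrictMono a) (x : Br) (N : ℕ) :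
    ∑ k ∈ range N, S2 x (a k) (a (k + 1)) = S2 x (a 0) (a N) := by
  induction N with
  | zero => simp [S2]
  | succ N ih =>
    rw [sum_range_succ, ih]
    unfold S2
    exact sum_Ico_consecutive _ (ha.monotone (Nat.zero_le _)) (ha.monotone (Nat.le_succ _))

/-- Case B: blocks of large weights. -/
theorem caseB_bound {a : ℕ → ℕ} (ha : StrictMono a) {g : ℕ → Esp 𝕜} {C r : ℝ} (hC : 0 ≤ C)
    (hr : 0 < r) (hg : ∀ k, ‖g k‖ ≤ C)
    (hs2 : ∀ k x i, a (k + 1) ≤ i → (g k).f x i = 0)
    (hs3 : ∀ k x i, S2 x (a k) (i + 1) ≤ r → (g k).f x i = 0)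
    {c : ℕ → 𝕜} (hc : ∀ k, ‖c k‖ ≤ 1) (N : ℕ) (x : Br) (m n : ℕ) :
    A x m n (∑ k ∈ range N, c k • g k).f ≤ (C * (2 / r)) * √(S2 x m n) := by
  refine (A_comb_le hc x m n N).trans ?_
  have hk : ∀ k ∈ range N, A x m n (g k).f ≤
      C * √(S2 x m n) / r * S2 x (a k) (a (k + 1)) := by
    intro k _
    have hnn : 0 ≤ C * √(S2 x m n) / r * S2 x (a k) (a (k + 1)) := by
      have := S2_nonneg x (a k) (a (k + 1))
      positivity
    by_cases h0 : A x m n (g k).f = 0
    · rw [h0]; exact hnn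
    · have hex : ∃ i, (g k).f x i ≠ 0 := by
        by_contra hcon
        push Not at hcon
        exact h0 (A_zero fun i _ _ => hcon i)
      obtain ⟨i, hi⟩ := hex
      have h1 : r < S2 x (a k) (i + 1) := by
        by_contra hcon
        exact hi (hs3 k x i (not_lt.1 hcon))
      have h2 : i < a (k + 1) := by
        by_contra hcon
        exact hi (hs2 k x i (not_lt.1 hcon))
      have h3 : S2 x (a k) (i + 1) ≤ S2 x (a k) (a (k + 1)) :=
        sum_le_sum_of_subset_of_nonneg (Ico_subset_Ico_right h2) fun _ _ _ => by positivity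
      have h4 : A x m n (g k).f ≤ C * √(S2 x m n) :=
        (A_le_norm _ _ _ _).trans (mul_le_mul_of_nonneg_right (hg k) (Real.sqrt_nonneg _))
      refine h4.trans ?_
      rw [div_mul_eq_mul_div, le_div_iff₀ hr]
      exact mul_le_mul_of_nonneg_left (h1.le.trans h3) (by positivity)
  refine (sum_le_sum hk).trans ?_
  rw [← mul_sum, sum_S2 ha]
  calc C * √(S2 x m n) / r * S2 x (a 0) (a N) ≤ C * √(S2 x m n) / r * 2 :=
        mul_le_mul_of_nonneg_left (S2_le _ _ _) (by positivity)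
    _ = _ := by ring

/-- Case A: blocks of rapidly decreasing weights. -/
theorem caseA_bound {e : ℕ → ℕ} {g : ℕ → Esp 𝕜} {C : ℝ} (hC : 0 ≤ C)
    (hg : ∀ k, ‖g k‖ ≤ C) (hs2 : ∀ k x i, e k ≤ i → (g k).f x i = 0) (he : ∀ k, k + 1 ≤ e k)
    (hem : Monotone e) (hsmall : ∀ k x m n, A x m n (g (k + 1)).f ≤ C * (1 / 4) ^ (e k))
    {c : ℕ → 𝕜} (hc : ∀ k, ‖c k‖ ≤ 1) (N : ℕ) (x : Br) (m n : ℕ) :
    A x m n (∑ k ∈ range N, c k • g k).f ≤ (C * (3 - 2 * (1 / 2) ^ N)) * √(S2 x m n) := by
  have hsq := Real.sqrt_nonneg (S2 x m n)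
  have hstep : ∀ N, A x m n (∑ k ∈ range (N + 1), c k • g k).f ≤
      A x m n (∑ k ∈ range N, c k • g k).f + A x m n (g N).f := by
    intro N
    rw [sum_range_succ]
    refine (A_add x m n _ _).trans (add_le_add le_rfl ?_)
    refine A_mono fun i _ _ => ?_
    show ‖c N * (g N).f x i‖ ≤ _
    rw [norm_mul]
    exact mul_le_of_le_one_left (norm_nonneg _) (hc N)
  have hbase : ∀ k, A x m n (g k).f ≤ C * √(S2 x m n) := fun k =>
    (A_le_norm _ _ _ _).trans (mul_le_mul_of_nonneg_right (hg k) hsq)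
  induction N with
  | zero =>
    rw [A_zero fun i _ _ => comb_zero (by intro k hk; omega)]
    norm_num
    positivity
  | succ N ih =>
    refine (hstep N).trans ?_
    rcases Nat.eq_zero_or_pos N with rfl | hN
    · rw [A_zero fun i _ _ => comb_zero (by intro k hk; omega), zero_add]
      refine (hbase 0).trans (mul_le_mul_of_nonneg_right ?_ hsq)
      norm_num
      linarith
    · obtain ⟨k, rfl⟩ : ∃ k, N = k + 1 := ⟨N - 1, by omega⟩
      rcases le_or_gt (e k) m with hm | hm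
      · rw [A_zero fun i hi _ => comb_zero (fun k' hk' => hs2 k' x i
          ((hem (by omega : k' ≤ k)).trans (hm.trans hi))), zero_add]
        refine (hbase _).trans ?_
        refine mul_le_mul_of_nonneg_right ?_ hsq
        have : (1 / 2 : ℝ) ^ (k + 1 + 1) ≤ 1 := pow_le_one₀ (by norm_num) (by norm_num)
        nlinarith
      · rcases lt_or_ge m n with hmn | hmn
        · have h1 : (1 / 2 : ℝ) ^ (e k) ≤ √(S2 x m n) := by
            refine le_trans ?_ (le_sqrt_S2 le_rfl hmn)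
            refine le_trans ?_ (w_lower x m)
            exact pow_le_pow_of_le_one (by norm_num) (by norm_num) (by omega)
          have h2 : (1 / 2 : ℝ) ^ (e k) ≤ (1 / 2) ^ (k + 1) :=
            pow_le_pow_of_le_one (by norm_num) (by norm_num) (he k)
          have h3 : (1 / 4 : ℝ) ^ (e k) = (1 / 2) ^ (e k) * (1 / 2) ^ (e k) := by
            rw [← mul_pow]; norm_num
          have h4 : A x m n (g (k + 1)).f ≤ C * ((1 / 2) ^ (k + 1) * √(S2 x m n)) := by
            refine (hsmall k x m n).trans (mul_le_mul_of_nonneg_left ?_ hC)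
            rw [h3]
            exact mul_le_mul h2 h1 (by positivity) (by positivity)
          calc _ ≤ C * (3 - 2 * (1 / 2) ^ (k + 1)) * √(S2 x m n) +
                C * ((1 / 2) ^ (k + 1) * √(S2 x m n)) := add_le_add ih h4
            _ = _ := by rw [pow_succ (1 / 2 : ℝ) (k + 1)]; ring
        · rw [A_empty hmn, A_empty hmn, add_zero]
          have : (1 / 2 : ℝ) ^ (k + 1 + 1) ≤ 1 := pow_le_one₀ (by norm_num) (by norm_num)
          have h3 : 0 ≤ 3 - 2 * (1 / 2 : ℝ) ^ (k + 1 + 1) := by linarith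
          positivity

theorem lo_small {h : Esp 𝕜} {a p : ℕ} {C : ℝ} (hC : 0 ≤ C) (hh : ‖h‖ ≤ C)
    (h1 : ∀ x i, i < a → h.f x i = 0) (x : Br) (m n : ℕ) :
    A x m n (res _ (consP_lo ((1 / 16) ^ p) a) h).f ≤ C * (1 / 4) ^ p := by
  classical
  set g := res _ (consP_lo ((1 / 16) ^ p) a) h with hg
  have hgn : ‖g‖ ≤ C := (norm_res_le _ _).trans hh
  let s := (Ico m n).filter fun i => g.f x i ≠ 0
  rcases s.eq_empty_or_nonempty with hs | hs
  · have : A x m n g.f = 0 := by
      refine A_zero fun i hi1 hi2 => ?_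
      by_contra hcon
      have : i ∈ s := mem_filter.2 ⟨mem_Ico.2 ⟨hi1, hi2⟩, hcon⟩
      rw [hs] at this
      simp at this
    rw [this]; positivity
  · set j := s.max' hs with hj
    have hjs : j ∈ s := s.max'_mem hs
    have hjne : g.f x j ≠ 0 := (mem_filter.1 hjs).2
    have hlo : S2 x a (j + 1) ≤ (1 / 16) ^ p := by
      by_contra hcon
      exact hjne (res_neg _ _ hcon)
    have hle : A x m n g.f ≤ A x a (j + 1) g.f := by
      unfold A
      rw [← sum_filter_add_sum_filter_not (Ico m n) fun i => g.f x i ≠ 0]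
      have hz : ∑ i ∈ (Ico m n).filter (fun i => ¬ g.f x i ≠ 0), w x i * ‖g.f x i‖ = 0 := by
        refine sum_eq_zero fun i hi => ?_
        have := (mem_filter.1 hi).2
        push Not at this
        rw [this]; simp
      rw [hz, add_zero]
      refine sum_le_sum_of_subset_of_nonneg ?_ fun i _ _ =>
        mul_nonneg (w_pos x i).le (norm_nonneg _)
      intro i hi
      rw [mem_Ico]
      constructor
      · by_contra hcon
        refine (mem_filter.1 hi).2 (res_eq_zero _ _ (h1 x i (not_le.1 hcon)))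
      · exact Nat.lt_succ_of_le (s.le_max' i hi)
    refine hle.trans ((A_le_norm g x a (j + 1)).trans ?_)
    refine mul_le_mul hgn ?_ (Real.sqrt_nonneg _) hC
    rw [Real.sqrt_le_left (by positivity)]
    refine hlo.trans (le_of_eq ?_)
    rw [← pow_mul, mul_comm, pow_mul]
    norm_num

variable {H : Type} [NormedAddCommGroup H] [InnerProductSpace 𝕜 H]

/-- A bounded operator into a Hilbert space is not bounded below on a bounded sequence of
successive blocks. -/
theorem no_blocks (T : Esp 𝕜 →L[𝕜] H) {M : ℕ → ℕ} (hM : StrictMono M) {h : ℕ → Esp 𝕜} {C ε : ℝ}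
    (hC : 0 ≤ C) (hε : 0 < ε) (hn : ∀ j, ‖h j‖ ≤ C)
    (h1 : ∀ j x i, i < M j → (h j).f x i = 0) (h2 : ∀ j x i, M (j + 1) ≤ i → (h j).f x i = 0)
    (hT : ∀ j, ε ≤ ‖T (h j)‖) : False := by
  by_cases hB : ∃ r > 0, ∃ᶠ j in atTop, ε / 2 ≤ ‖T (res _ (consP_hi r (M j)) (h j))‖
  · obtain ⟨r, hr, hf⟩ := hB
    obtain ⟨φ, hφ, hφT⟩ := extraction_of_frequently_atTop hf
    have ha : StrictMono fun k => M (φ k) := hM.comp hφ
    refine contra T ha (g := fun k => res _ (consP_hi r (M (φ k))) (h (φ k))) hC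
      (B := C * (2 / r)) (by positivity) (half_pos hε)
      (fun k => (norm_res_le _ _).trans (hn _)) ?_ ?_ ?_ hφT
    · intro k x i hi
      exact res_eq_zero _ _ (h1 _ _ _ hi)
    · intro k x i hi
      refine res_eq_zero _ _ (h2 _ _ _ (le_trans (hM.monotone ?_) hi))
      exact hφ (Nat.lt_succ_self k)
    · intro N c hc x m n
      refine caseB_bound ha hC hr (fun k => (norm_res_le _ _).trans (hn _)) ?_ ?_ hc N x m n
      · intro k x i hi
        refine res_eq_zero _ _ (h2 _ _ _ (le_trans (hM.monotone ?_) hi))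
        exact hφ (Nat.lt_succ_self k)
      · intro k x i hi
        exact res_neg _ _ (not_lt.2 hi)
  · push Not at hB
    have hlo : ∀ p : ℕ, ∃ J : ℕ, ∀ j ≥ J,
        ε / 2 ≤ ‖T (res _ (consP_lo ((1 / 16) ^ p) (M j)) (h j))‖ := by
      intro p
      have := hB ((1 / 16) ^ p) (by positivity)
      obtain ⟨J, hJ⟩ := eventually_atTop.1 this
      refine ⟨J, fun j hj => ?_⟩
      have e1 := hJ j hj
      have e2 : T (h j) = T (res _ (consP_hi ((1 / 16) ^ p) (M j)) (h j)) +
          T (res _ (consP_lo ((1 / 16) ^ p) (M j)) (h j)) := by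
        rw [← map_add, hi_add_lo]
      have e3 := norm_add_le (T (res _ (consP_hi ((1 / 16) ^ p) (M j)) (h j)))
        (T (res _ (consP_lo ((1 / 16) ^ p) (M j)) (h j)))
      rw [← e2] at e3
      have e4 := hT j
      linarith
    choose J hJ using hlo
    let jj : ℕ → ℕ := fun k => Nat.rec (J 0) (fun _ j => max (j + 1) (J (M (j + 1)))) k
    have hjj0 : jj 0 = J 0 := rfl
    have hjjs : ∀ k, jj (k + 1) = max (jj k + 1) (J (M (jj k + 1))) := fun k => rfl
    have hjjm : StrictMono jj := strictMono_nat_of_lt_succ fun k => by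
      rw [hjjs]; exact lt_of_lt_of_le (Nat.lt_succ_self _) (le_max_left _ _)
    let p : ℕ → ℕ := fun k => Nat.casesOn k 0 fun k => M (jj k + 1)
    have hp : ∀ k, J (p k) ≤ jj k := by
      intro k
      cases k with
      | zero => exact hjj0.ge
      | succ k => rw [hjjs]; exact le_max_right _ _
    have ha : StrictMono fun k => M (jj k) := hM.comp hjjm
    have hea : ∀ k, M (jj k + 1) ≤ M (jj (k + 1)) := fun k =>
      hM.monotone (hjjm (Nat.lt_succ_self k))
    set g : ℕ → Esp 𝕜 := fun k => res _ (consP_lo ((1 / 16) ^ (p k)) (M (jj k))) (h (jj k)) with hg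
    have hgn : ∀ k, ‖g k‖ ≤ C := fun k => (norm_res_le _ _).trans (hn _)
    refine contra T ha (g := g) hC (B := 3 * C) (by positivity) (half_pos hε) hgn ?_ ?_ ?_ ?_
    · intro k x i hi
      exact res_eq_zero _ _ (h1 _ _ _ hi)
    · intro k x i hi
      exact res_eq_zero _ _ (h2 _ _ _ ((hea k).trans hi))
    · intro N c hc x m n
      refine (caseA_bound (e := fun k => M (jj k + 1)) hC hgn ?_ ?_ ?_ ?_ hc N x m n).trans ?_
      · intro k x i hi
        exact res_eq_zero _ _ (h2 _ _ _ hi)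
      · intro k
        have e1 : k ≤ jj k := hjjm.id_le k
        have e2 : jj k + 1 ≤ M (jj k + 1) := hM.id_le _
        show k + 1 ≤ M (jj k + 1)
        omega
      · intro k k' hkk
        exact hM.monotone (Nat.succ_le_succ (hjjm.monotone hkk))
      · intro k x m n
        exact lo_small hC (hn _) (h1 _) x m n
      · refine mul_le_mul_of_nonneg_right ?_ (Real.sqrt_nonneg _)
        have : (0 : ℝ) < (1 / 2) ^ N := by positivity
        nlinarith
    · intro k
      exact hJ (p k) (jj k) (hp k)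

/-- A bounded operator into a Hilbert space is small on bounded elements with small initial
parts. -/
theorem small_of_init (T : Esp 𝕜 →L[𝕜] H) {C ε : ℝ} (hC : 0 ≤ C) (hε : 0 < ε) :
    ∃ M : ℕ, ∃ η > 0, ∀ k : Esp 𝕜, ‖k‖ ≤ C → (∀ x, ∀ i < M, ‖k.f x i‖ ≤ η) → ‖T k‖ ≤ ε := by
  by_contra hcon
  push Not at hcon
  set δ : ℝ := ε / (4 * (‖T‖ + 1)) with hδ
  have hT1 : 0 < ‖T‖ + 1 := by have := norm_nonneg T; positivity
  have hδ0 : 0 < δ := by positivity
  have hTδ : ‖T‖ * (2 * δ) ≤ ε / 2 := by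
    have : ‖T‖ * (2 * δ) ≤ (‖T‖ + 1) * (2 * δ) :=
      mul_le_mul_of_nonneg_right (by linarith) (by positivity)
    refine this.trans (le_of_eq ?_)
    rw [hδ]; field_simp; norm_num
  have hex : ∀ M : ℕ, ∃ k : Esp 𝕜, ‖k‖ ≤ C ∧ (∀ x, ∀ i < M, ‖k.f x i‖ ≤ δ / (M + 1)) ∧
      ε < ‖T k‖ := fun M => hcon M (δ / (M + 1)) (by positivity)
  choose K hK1 hK2 hK3 using hex
  have hnx : ∀ M : ℕ, ∃ M' > M, ‖res (fun _ i => M' ≤ i) (consP_lev _) (K M)‖ ≤ δ := by
    intro M
    obtain ⟨M0, hM0⟩ := tail_small (K M) hδ0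
    exact ⟨max M0 (M + 1), lt_of_lt_of_le (Nat.lt_succ_self M) (le_max_right _ _),
      hM0 _ (le_max_left _ _)⟩
  choose nx hnx1 hnx2 using hnx
  let Ms : ℕ → ℕ := fun j => nx^[j] 0
  have hMs : ∀ j, Ms (j + 1) = nx (Ms j) := fun j => Function.iterate_succ_apply' nx j 0
  have hMsm : StrictMono Ms := strictMono_nat_of_lt_succ fun j => by rw [hMs]; exact hnx1 _
  set h : ℕ → Esp 𝕜 := fun j =>
    res (fun _ i => Ms j ≤ i ∧ i < Ms (j + 1)) (consP_lev _) (K (Ms j)) with hh
  have hdec : ∀ j, K (Ms j) - h j = res (fun _ i => i < Ms j) (consP_lev _) (K (Ms j)) +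
      res (fun _ i => Ms (j + 1) ≤ i) (consP_lev _) (K (Ms j)) := by
    intro j
    refine Esp.ext' fun x i => ?_
    rw [f_sub, f_add]
    have hlt : Ms j < Ms (j + 1) := hMsm (Nat.lt_succ_self j)
    rcases lt_or_ge i (Ms j) with h1 | h1
    · rw [res_pos (W := fun _ i => i < Ms j) _ _ h1, hh]
      dsimp only
      rw [res_neg _ _ (by omega), res_neg _ _ (by omega)]
      ring
    · rcases lt_or_ge i (Ms (j + 1)) with h2 | h2
      · rw [res_neg (W := fun _ i => i < Ms j) _ _ (by omega), hh]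
        dsimp only
        rw [res_pos _ _ ⟨h1, h2⟩, res_neg _ _ (by omega)]
        ring
      · rw [res_neg (W := fun _ i => i < Ms j) _ _ (by omega), hh]
        dsimp only
        rw [res_neg _ _ (by omega), res_pos _ _ h2]
        ring
  have hsmall : ∀ j, ‖K (Ms j) - h j‖ ≤ 2 * δ := by
    intro j
    rw [hdec]
    refine (norm_add_le _ _).trans ?_
    have e1 := norm_init_le (h := K (Ms j)) (M := Ms j) (η := δ / (Ms j + 1)) (by positivity)
      (hK2 (Ms j))
    have e2 : (Ms j : ℝ) * (δ / (Ms j + 1)) ≤ δ := by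
      rw [mul_div_assoc', div_le_iff₀ (by positivity)]
      nlinarith
    have e3 := hnx2 (Ms j)
    rw [← hMs] at e3
    linarith
  refine no_blocks T hMsm (h := h) hC (half_pos hε) (fun j => (norm_res_le _ _).trans (hK1 _))
    ?_ ?_ ?_
  · intro j x i hi
    exact res_neg _ _ (by omega)
  · intro j x i hi
    exact res_neg _ _ (by omega)
  · intro j
    have e1 := hK3 (Ms j)
    have e2 : T (K (Ms j)) = T (h j) + T (K (Ms j) - h j) := by rw [← map_add]; congr 1; abel
    have e3 := norm_add_le (T (h j)) (T (K (Ms j) - h j))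
    rw [← e2] at e3
    have e4 : ‖T (K (Ms j) - h j)‖ ≤ ε / 2 :=
      ((T.le_opNorm _).trans (mul_le_mul_of_nonneg_left (hsmall j) (norm_nonneg _))).trans hTδ
    linarith

end

end Pool.Agent.Q178.WM
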