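import Pool.Agent.Q178.WM.E

/-!
# Norm attainment by compactness
-/

set_option autoImplicit false

open Finset Filter Topology

namespace Pool.Agent.Q178.WM

/-- Truncation of a branch. -/
def trunc (M : ℕ) (x : Br) : Br :=
  ⟨fun j => if j < M then x.1 j else j + 1, by
    intro i
    dsimp only
    split_ifs
    · exact x.2.1 i
    · exact le_rfl, by
    intro n
    refine (sum_le_sum fun i _ => ?_).trans (x.2.2 n)
    refine pow_le_pow_of_le_one (by norm_num) (by norm_num) ?_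
    dsimp only
    split_ifs
    · exact le_rfl
    · exact x.2.1 i⟩

theorem fin_rep (M : ℕ) : (Set.range (trunc M)).Finite := by
  have hinj : Function.Injective fun (y : Set.range (trunc M)) (j : Fin M) =>
      (⟨y.1.1 j, by have := y.1.2.1 j; have := j.2; omega⟩ : Fin (M + 2)) := by
    rintro ⟨y, x, rfl⟩ ⟨y', x', rfl⟩ H
    apply Subtype.ext
    apply Subtype.ext
    funext j
    by_cases hj : j < M
    · have := congrFun H ⟨j, hj⟩
      exact congrArg Fin.val this
    · show (if j < M then x.1 j else j + 1) = (if j < M then x'.1 j else j + 1)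
      rw [if_neg hj, if_neg hj]
  exact Set.finite_coe_iff.1 (Finite.of_injective _ hinj)

section

variable {𝕜 : Type} [RCLike 𝕜]

variable (𝕜) in
/-- The closed unit ball as a set of functions. -/
def bal : Set (Br → ℕ → 𝕜) := {h | Cons h ∧ ∀ l, Good l → tot h l ≤ 1}

/-- An element of the closed unit ball. -/
def mkE (h : bal 𝕜) : Esp 𝕜 := ⟨h.1, h.2.1, 1, h.2.2⟩

theorem mkE_f (h : bal 𝕜) (x : Br) (i : ℕ) : (mkE h).f x i = h.1 x i := rfl

theorem norm_mkE (h : bal 𝕜) : ‖mkE h‖ ≤ 1 := by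
  rw [norm_le_iff _ zero_le_one]
  intro l hl
  rw [one_pow]
  exact h.2.2 l hl

theorem mem_bal {h : Esp 𝕜} (hh : ‖h‖ ≤ 1) : h.f ∈ bal 𝕜 := by
  refine ⟨h.cons, fun l hl => ?_⟩
  have := (norm_le_iff h zero_le_one).1 hh l hl
  rwa [one_pow] at this

theorem isCompact_bal : IsCompact (bal 𝕜) := by
  have hbig : IsCompact (Set.univ.pi fun _ : Br => Set.univ.pi fun _ : ℕ =>
      Metric.closedBall (0 : 𝕜) 1) :=
    isCompact_univ_pi fun _ => isCompact_univ_pi fun _ => isCompact_closedBall _ _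
  refine hbig.of_isClosed_subset ?_ ?_
  · have h1 : IsClosed {h : Br → ℕ → 𝕜 | Cons h} := by
      have : {h : Br → ℕ → 𝕜 | Cons h} =
          ⋂ x : Br, ⋂ y : Br, ⋂ i : ℕ, ⋂ (_ : ∀ j ≤ i, x.1 j = y.1 j), {h | h x i = h y i} := by
        ext h; simp only [Set.mem_iInter]; rfl
      rw [this]
      refine isClosed_iInter fun x => isClosed_iInter fun y => isClosed_iInter fun i =>
        isClosed_iInter fun _ => isClosed_eq ?_ ?_
      · exact (continuous_apply i).comp (continuous_apply x)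
      · exact (continuous_apply i).comp (continuous_apply y)
    have h2 : IsClosed {h : Br → ℕ → 𝕜 | ∀ l, Good l → tot h l ≤ 1} := by
      have : {h : Br → ℕ → 𝕜 | ∀ l, Good l → tot h l ≤ 1} =
          ⋂ l : List Seg, ⋂ (_ : Good l), {h | tot h l ≤ 1} := by
        ext h; simp only [Set.mem_iInter]; rfl
      rw [this]
      refine isClosed_iInter fun l => isClosed_iInter fun _ => isClosed_le ?_ continuous_const
      rw [continuous_iff_continuousAt]
      intro h
      exact tendsto_tot (F := 𝓝 h) (g := fun q => q) (fun x i =>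
        ((continuous_apply i).comp (continuous_apply x)).continuousAt) l
    exact h1.inter h2
  · intro h hh
    rw [Set.mem_univ_pi]
    intro x
    rw [Set.mem_univ_pi]
    intro i
    rw [mem_closedBall_zero_iff]
    exact (apply_le_norm (mkE ⟨h, hh⟩) x i).trans (norm_mkE ⟨h, hh⟩)

variable {F : Type} [NormedAddCommGroup F] [NormedSpace 𝕜 F]

/-- Operators which are small on bounded elements with small initial parts attain their norms. -/
theorem attains (T : (Esp 𝕜 × 𝕜) →L[𝕜] F)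
    (hT : ∀ ε > 0, ∃ M : ℕ, ∃ η > 0, ∀ k : Esp 𝕜, ‖k‖ ≤ 2 → (∀ x, ∀ i < M, ‖k.f x i‖ ≤ η) →
      ‖T (k, 0)‖ ≤ ε) : ∃ z : Esp 𝕜 × 𝕜, ‖z‖ = 1 ∧ ‖T z‖ = ‖T‖ := by
  classical
  let Ω := ↥(bal 𝕜) × ↥(Metric.closedBall (0 : 𝕜) 1)
  have : CompactSpace ↥(bal 𝕜) := isCompact_iff_compactSpace.1 isCompact_bal
  have : CompactSpace ↥(Metric.closedBall (0 : 𝕜) 1) :=
    isCompact_iff_compactSpace.1 (isCompact_closedBall _ _)
  let z0 : Ω := (⟨(0 : Esp 𝕜).f, mem_bal (by simp)⟩, ⟨0, by simp⟩)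
  let Z : Ω → Esp 𝕜 × 𝕜 := fun p => (mkE p.1, p.2.1)
  have hZ : ∀ p, ‖Z p‖ ≤ 1 := by
    intro p
    refine max_le (norm_mkE _) ?_
    have := p.2.2
    rwa [mem_closedBall_zero_iff] at this
  have hcont : Continuous fun p : Ω => ‖T (Z p)‖ := by
    rw [continuous_iff_continuousAt]
    intro p
    rw [ContinuousAt, Metric.tendsto_nhds]
    intro ε hε
    obtain ⟨M, η, hη, hM⟩ := hT (ε / 3) (by positivity)
    have hT1 : 0 < ‖T‖ + 1 := by have := norm_nonneg T; positivity
    have e1 : ∀ᶠ q : Ω in 𝓝 p, ∀ y ∈ Set.range (trunc M), ∀ i ∈ range M,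
        ‖q.1.1 y i - p.1.1 y i‖ < η := by
      rw [eventually_all_finite (fin_rep M)]
      intro y _
      rw [eventually_all_finset]
      intro i _
      have hc : Continuous fun q : Ω => q.1.1 y i :=
        (continuous_apply i).comp ((continuous_apply y).comp
          (continuous_subtype_val.comp continuous_fst))
      have := Metric.tendsto_nhds.1 (hc.continuousAt (x := p)) η hη
      simpa only [dist_eq_norm] using this
    have e2 : ∀ᶠ q : Ω in 𝓝 p, ‖q.2.1 - p.2.1‖ < ε / (3 * (‖T‖ + 1)) := by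
      have hc : Continuous fun q : Ω => (q.2.1 : 𝕜) := continuous_subtype_val.comp continuous_snd
      have := Metric.tendsto_nhds.1 (hc.continuousAt (x := p)) (ε / (3 * (‖T‖ + 1))) (by positivity)
      simpa only [dist_eq_norm] using this
    filter_upwards [e1, e2] with q h1 h2
    have hdec : Z q - Z p = (mkE q.1 - mkE p.1, 0) + (0, q.2.1 - p.2.1) := by
      show (mkE q.1 - mkE p.1, q.2.1 - p.2.1) = _
      simp
    have h3 : ‖T (mkE q.1 - mkE p.1, 0)‖ ≤ ε / 3 := by
      refine hM _ ?_ ?_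
      · refine (norm_sub_le _ _).trans ?_
        have := norm_mkE q.1
        have := norm_mkE p.1
        linarith
      · intro x i hi
        have hx : (mkE q.1 - mkE p.1).f x i = (mkE q.1 - mkE p.1).f (trunc M x) i := by
          refine (mkE q.1 - mkE p.1).cons x (trunc M x) i fun j hj => ?_
          show x.1 j = if j < M then x.1 j else j + 1
          rw [if_pos (by omega)]
        rw [hx]
        exact (h1 _ ⟨x, rfl⟩ i (mem_range.2 hi)).le
    have h4 : ‖T ((0 : Esp 𝕜), q.2.1 - p.2.1)‖ ≤ ε / 3 := by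
      refine (T.le_opNorm _).trans ?_
      have e3 : ‖((0 : Esp 𝕜), q.2.1 - p.2.1)‖ = ‖q.2.1 - p.2.1‖ := by
        rw [Prod.norm_mk, norm_zero]
        exact max_eq_right (norm_nonneg _)
      rw [e3]
      calc ‖T‖ * ‖q.2.1 - p.2.1‖ ≤ (‖T‖ + 1) * (ε / (3 * (‖T‖ + 1))) :=
            mul_le_mul (by linarith) h2.le (norm_nonneg _) hT1.le
        _ = ε / 3 := by field_simp
    rw [Real.dist_eq]
    refine (abs_norm_sub_norm_le _ _).trans_lt ?_
    rw [← map_sub, hdec, map_add]
    refine (norm_add_le _ _).trans_lt ?_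
    linarith
  obtain ⟨p, -, hp⟩ := IsCompact.exists_isMaxOn (isCompact_univ (X := Ω)) ⟨z0, trivial⟩
    hcont.continuousOn
  have hmax : ∀ z : Esp 𝕜 × 𝕜, ‖z‖ ≤ 1 → ‖T z‖ ≤ ‖T (Z p)‖ := by
    intro z hz
    have hz1 : ‖z.1‖ ≤ 1 := (le_max_left _ _).trans hz
    have hz2 : ‖z.2‖ ≤ 1 := (le_max_right _ _).trans hz
    have := hp (a := (⟨z.1.f, mem_bal hz1⟩, ⟨z.2, by rwa [mem_closedBall_zero_iff]⟩)) trivial
    exact this
  have hop : ‖T‖ ≤ ‖T (Z p)‖ := by
    refine T.opNorm_le_bound (norm_nonneg _) fun z => ?_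
    rcases eq_or_ne z 0 with rfl | hz
    · simp
    · have hz' : 0 < ‖z‖ := norm_pos_iff.2 hz
      have h1 := hmax (((‖z‖⁻¹ : ℝ) : 𝕜) • z) (by
        rw [norm_smul, RCLike.norm_ofReal, abs_of_pos (inv_pos.2 hz'), inv_mul_cancel₀ hz'.ne'])
      rw [map_smul, norm_smul, RCLike.norm_ofReal, abs_of_pos (inv_pos.2 hz')] at h1
      rw [inv_mul_le_iff₀ hz'] at h1
      linarith
  have hle : ‖T (Z p)‖ ≤ ‖T‖ * ‖Z p‖ := T.le_opNorm _
  by_cases h0 : ‖T‖ = 0
  · refine ⟨(0, 1), by simp [Prod.norm_mk], ?_⟩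
    have : T = 0 := norm_eq_zero.1 h0
    rw [this]
    simp
  · have hpos : 0 < ‖T‖ := lt_of_le_of_ne (norm_nonneg _) (Ne.symm h0)
    have h1 : 1 ≤ ‖Z p‖ := by
      by_contra hcon
      push Not at hcon
      nlinarith
    have h2 : ‖Z p‖ = 1 := le_antisymm (hZ p) h1
    refine ⟨Z p, h2, le_antisymm ?_ hop⟩
    rw [h2, mul_one] at hle
    exact hle

end

end Pool.Agent.Q178.WM
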