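import Pool.Agent.Q178.WM.F

/-!
# The level constant subspace
-/

set_option autoImplicit false

open Finset Filter Topology

namespace Pool.Agent.Q178.WM

section

variable {𝕜 : Type} [RCLike 𝕜]

/-- Evaluation at a node. -/
noncomputable def evalL (x : Br) (i : ℕ) : Esp 𝕜 →L[𝕜] 𝕜 :=
  (evalₗ x i).mkContinuous 1 fun h => by rw [one_mul]; exact apply_le_norm h x i

theorem evalL_apply (x : Br) (i : ℕ) (h : Esp 𝕜) : evalL x i h = h.f x i := rfl

variable (𝕜) in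
/-- The subspace of the level constant functions. -/
def Y : Submodule 𝕜 (Esp 𝕜) where
  carrier := {h | ∀ x y i, h.f x i = h.f y i}
  add_mem' := by
    intro g h hg hh x y i
    rw [f_add, f_add, hg x y i, hh x y i]
  zero_mem' := fun _ _ _ => rfl
  smul_mem' := by
    intro c h hh x y i
    rw [f_smul, f_smul, hh x y i]

theorem isClosed_Y : IsClosed (Y 𝕜 : Set (Esp 𝕜)) := by
  have : (Y 𝕜 : Set (Esp 𝕜)) = ⋂ x : Br, ⋂ y : Br, ⋂ i : ℕ, {h | evalL x i h = evalL y i h} := by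
    ext h; simp only [Set.mem_iInter]; rfl
  rw [this]
  exact isClosed_iInter fun x => isClosed_iInter fun y => isClosed_iInter fun i =>
    isClosed_eq (evalL x i).continuous (evalL y i).continuous

theorem quant (p : ℕ) {a : ℝ} (ha : 0 ≤ a) (ha1 : a ≤ 1) :
    ∃ k : ℕ, k ≤ p ∧ (1 / 4 : ℝ) ^ k ≤ a ^ 2 + (1 / 4) ^ p ∧ a ≤ 2 * (1 / 2 : ℝ) ^ k := by
  classical
  have hex : ∃ k : ℕ, (1 / 2 : ℝ) ^ k ≤ a ∨ k = p := ⟨p, Or.inr rfl⟩
  refine ⟨Nat.find hex, Nat.find_min' hex (Or.inr rfl), ?_, ?_⟩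
  · rcases Nat.find_spec hex with h | h
    · have h1 : (1 / 4 : ℝ) ^ (Nat.find hex) = ((1 / 2 : ℝ) ^ (Nat.find hex)) ^ 2 := by
        rw [← pow_mul, mul_comm, pow_mul]; norm_num
      rw [h1]
      have h2 := pow_le_pow_left₀ (by positivity) h 2
      have : (0 : ℝ) ≤ (1 / 4) ^ p := by positivity
      linarith
    · rw [h]
      nlinarith [sq_nonneg a]
  · rcases Nat.eq_zero_or_pos (Nat.find hex) with h | h
    · rw [h]; norm_num; linarith
    · obtain ⟨k, hk⟩ : ∃ k, Nat.find hex = k + 1 := ⟨Nat.find hex - 1, by omega⟩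
      have h1 := Nat.find_min hex (m := k) (by omega)
      push Not at h1
      rw [hk, pow_succ]
      linarith [h1.1]

theorem sum_geom_le (n : ℕ) : ∑ i ∈ range n, (1 / 4 : ℝ) ^ (i + 1) ≤ 1 - (1 / 4) ^ n := by
  induction n with
  | zero => simp
  | succ n ih =>
    rw [sum_range_succ]
    have : (0 : ℝ) < (1 / 4) ^ n := by positivity
    rw [pow_succ (1 / 4 : ℝ) n]
    linarith

/-- A branch adapted to given numbers. -/
theorem exists_branch {a : ℕ → ℝ} (ha : ∀ i, 0 ≤ a i) (hs : ∀ n, ∑ i ∈ range n, a i ^ 2 ≤ 1) :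
    ∃ b : Br, ∀ i, a i ≤ 2 * w b i := by
  have ha1 : ∀ i, a i ≤ 1 := by
    intro i
    have h1 : a i ^ 2 ≤ ∑ j ∈ range (i + 1), a j ^ 2 :=
      single_le_sum (f := fun j => a j ^ 2) (fun j _ => by positivity)
        (mem_range.2 (Nat.lt_succ_self i))
    have h2 := h1.trans (hs (i + 1))
    nlinarith [ha i]
  choose k hk1 hk2 hk3 using fun i => quant (i + 1) (ha i) (ha1 i)
  refine ⟨⟨k, hk1, fun n => ?_⟩, hk3⟩
  calc ∑ i ∈ range n, (1 / 4 : ℝ) ^ (k i) ≤ ∑ i ∈ range n, (a i ^ 2 + (1 / 4) ^ (i + 1)) :=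
        sum_le_sum fun i _ => hk2 i
    _ ≤ 1 + 1 := by
        rw [sum_add_distrib]
        refine add_le_add (hs n) ((sum_geom_le n).trans ?_)
        have : (0 : ℝ) < (1 / 4) ^ n := by positivity
        linarith
    _ = 2 := by norm_num

/-- A fixed branch. -/
noncomputable def x0 : Br :=
  (exists_branch (a := fun _ => 0) (fun _ => le_rfl) (fun n => by simp)).choose

/-- The lower estimate. -/
theorem lower (h : Esp 𝕜) (hh : h ∈ Y 𝕜) (n : ℕ) :
    ∑ i ∈ range n, ‖h.f x0 i‖ ^ 2 ≤ 8 * ‖h‖ ^ 2 := by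
  set s := ∑ i ∈ range n, ‖h.f x0 i‖ ^ 2 with hs
  have hs0 : 0 ≤ s := sum_nonneg fun _ _ => by positivity
  rcases hs0.eq_or_lt with h0 | h0
  · rw [← h0]; positivity
  · have hsq : 0 < √s := Real.sqrt_pos.2 h0
    have hss : √s ^ 2 = s := Real.sq_sqrt hs0
    obtain ⟨b, hb⟩ := exists_branch (a := fun i => if i < n then ‖h.f x0 i‖ / √s else 0)
      (by
        intro i
        split_ifs
        · positivity
        · exact le_rfl)
      (by
        intro m
        have e : ∑ i ∈ range m, (if i < n then ‖h.f x0 i‖ / √s else 0) ^ 2 ≤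
            ∑ i ∈ range n, ‖h.f x0 i‖ ^ 2 / s := by
          calc ∑ i ∈ range m, (if i < n then ‖h.f x0 i‖ / √s else 0) ^ 2 =
              ∑ i ∈ range m, (if i < n then ‖h.f x0 i‖ ^ 2 / s else 0) := by
                refine sum_congr rfl fun i _ => ?_
                split_ifs
                · rw [div_pow, hss]
                · norm_num
            _ = ∑ i ∈ (range m).filter (fun i => i < n), ‖h.f x0 i‖ ^ 2 / s := by
                rw [sum_filter]
            _ ≤ _ := by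
                refine sum_le_sum_of_subset_of_nonneg ?_ fun _ _ _ => by positivity
                intro i hi
                exact mem_range.2 (mem_filter.1 hi).2
        refine e.trans ?_
        rw [← sum_div, div_le_one h0])
    have h1 := A_le_norm h b 0 n
    have h2 : √(S2 b 0 n) ≤ √2 := Real.sqrt_le_sqrt (S2_le _ _ _)
    have h3 : √s / 2 ≤ A b 0 n h.f := by
      have e1 : ∀ i ∈ range n, ‖h.f x0 i‖ ^ 2 / (2 * √s) ≤ w b i * ‖h.f b i‖ := by
        intro i hi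
        have e2 := hb i
        rw [if_pos (mem_range.1 hi)] at e2
        rw [hh b x0 i]
        have e3 : ‖h.f x0 i‖ / √s / 2 * ‖h.f x0 i‖ ≤ w b i * ‖h.f x0 i‖ :=
          mul_le_mul_of_nonneg_right (by linarith) (norm_nonneg _)
        refine le_trans (le_of_eq ?_) e3
        field_simp
      have e4 := sum_le_sum e1
      rw [← sum_div, ← hs] at e4
      unfold A
      rw [← Finset.range_eq_Ico]
      refine le_trans (le_of_eq ?_) e4
      rw [div_eq_div_iff (by norm_num) (by positivity)]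
      calc √s * (2 * √s) = 2 * √s ^ 2 := by ring
        _ = s * 2 := by rw [hss]; ring
    have h4 : √s / 2 ≤ ‖h‖ * √2 :=
      h3.trans (h1.trans (mul_le_mul_of_nonneg_left h2 (norm_nonneg _)))
    have h5 : (√s / 2) ^ 2 ≤ (‖h‖ * √2) ^ 2 := pow_le_pow_left₀ (by positivity) h4 2
    rw [div_pow, hss, mul_pow, Real.sq_sqrt (by norm_num)] at h5
    linarith

/-- The upper estimate. -/
theorem upper (h : Esp 𝕜) (hh : h ∈ Y 𝕜) {K : ℝ} (hK0 : 0 ≤ K)
    (hK : ∀ n, ∑ i ∈ range n, ‖h.f x0 i‖ ^ 2 ≤ K ^ 2) : ‖h‖ ≤ K := by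
  rw [norm_le_iff _ hK0]
  intro l hl
  set N0 := (l.map fun s => s.2.2).sum with hN0
  let t : Seg → ℝ := fun s =>
    ∑ i ∈ range N0, ‖h.f x0 i‖ ^ 2 * (if s.2.1 ≤ i ∧ i < s.2.2 then (1 : ℝ) else 0)
  have ht0 : ∀ s, 0 ≤ t s := fun s => sum_nonneg fun i _ => by split_ifs <;> positivity
  have htK : ∀ s, t s ≤ K ^ 2 := by
    intro s
    refine le_trans (sum_le_sum fun i _ => ?_) (hK N0)
    split_ifs
    · rw [mul_one]
    · rw [mul_zero]; positivity
  have hsum : (l.map t).sum ≤ K ^ 2 := by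
    show (l.map fun s => ∑ i ∈ range N0, ‖h.f x0 i‖ ^ 2 *
      (if s.2.1 ≤ i ∧ i < s.2.2 then (1 : ℝ) else 0)).sum ≤ K ^ 2
    rw [list_sum_finset l N0 fun i s =>
      ‖h.f x0 i‖ ^ 2 * (if s.2.1 ≤ i ∧ i < s.2.2 then (1 : ℝ) else 0)]
    refine le_trans (sum_le_sum fun i _ => ?_) (hK N0)
    rw [List.sum_map_mul_left]
    calc _ ≤ ‖h.f x0 i‖ ^ 2 * 1 := mul_le_mul_of_nonneg_left (count_le hl i) (by positivity)
      _ = _ := mul_one _
  have hv : ∀ s ∈ l, (v s.1 s.2.1 s.2.2 h.f) ^ 4 ≤ K ^ 2 * t s := by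
    intro s hs
    have hsN : s.2.2 ≤ N0 := List.single_le_sum (fun _ _ => Nat.zero_le _) _
      (List.mem_map_of_mem (f := fun s : Seg => s.2.2) hs)
    have e1 : A s.1 s.2.1 s.2.2 h.f ≤ √(t s) * √(S2 s.1 s.2.1 s.2.2) := by
      unfold A
      refine (Real.sum_mul_le_sqrt_mul_sqrt _ _ _).trans ?_
      rw [mul_comm]
      refine mul_le_mul_of_nonneg_right (Real.sqrt_le_sqrt ?_) (Real.sqrt_nonneg _)
      have e2 : t s = ∑ i ∈ (range N0).filter (fun i => s.2.1 ≤ i ∧ i < s.2.2),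
          ‖h.f x0 i‖ ^ 2 := by
        rw [sum_filter]
        refine sum_congr rfl fun i _ => ?_
        split_ifs <;> simp
      rw [e2]
      have e3 : ∑ i ∈ Ico s.2.1 s.2.2, ‖h.f s.1 i‖ ^ 2 =
          ∑ i ∈ Ico s.2.1 s.2.2, ‖h.f x0 i‖ ^ 2 :=
        sum_congr rfl fun i _ => by rw [hh s.1 x0 i]
      rw [e3]
      refine sum_le_sum_of_subset_of_nonneg ?_ fun _ _ _ => by positivity
      intro i hi
      rw [mem_Ico] at hi
      exact mem_filter.2 ⟨mem_range.2 (by omega), hi⟩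
    have e2 : v s.1 s.2.1 s.2.2 h.f ≤ √(t s) := v_le_of (Real.sqrt_nonneg _) e1
    calc (v s.1 s.2.1 s.2.2 h.f) ^ 4 ≤ √(t s) ^ 4 := pow_le_pow_left₀ (v_nonneg _ _ _ _) e2 4
      _ = (√(t s) ^ 2) ^ 2 := by ring
      _ = t s * t s := by rw [Real.sq_sqrt (ht0 s)]; ring
      _ ≤ K ^ 2 * t s := mul_le_mul_of_nonneg_right (htK s) (ht0 s)
  calc tot h.f l ≤ (l.map fun s => K ^ 2 * t s).sum := list_sum_le hv
    _ = K ^ 2 * (l.map t).sum := List.sum_map_mul_left _ _ _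
    _ ≤ K ^ 2 * K ^ 2 := mul_le_mul_of_nonneg_left hsum (by positivity)
    _ = K ^ 4 := by ring

theorem exists_range (s : Finset ℕ) : ∃ n, s ⊆ range n :=
  ⟨s.sup id + 1, fun i hi => mem_range.2 (Nat.lt_succ_of_le (le_sup (f := id) hi))⟩

/-- The isomorphism onto its image in a Hilbert space. -/
theorem exists_J : ∃ J : Y 𝕜 →L[𝕜] lp (fun _ : ℕ => 𝕜) 2, ∀ y, ‖y‖ ≤ ‖J y‖ := by
  have h2 : (2 : ENNReal).toReal = 2 := by norm_num
  have hbd : ∀ (y : Y 𝕜) (s : Finset ℕ),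
      ∑ i ∈ s, ‖y.1.f x0 i‖ ^ (2 : ENNReal).toReal ≤ 8 * ‖y.1‖ ^ 2 := by
    intro y s
    obtain ⟨n, hn⟩ := exists_range s
    refine (sum_le_sum_of_subset_of_nonneg hn fun _ _ _ => by positivity).trans ?_
    refine le_trans (le_of_eq ?_) (lower y.1 y.2 n)
    refine sum_congr rfl fun i _ => ?_
    rw [h2, Real.rpow_two]
  let J0 : Y 𝕜 →ₗ[𝕜] lp (fun _ : ℕ => 𝕜) 2 :=
    { toFun := fun y => ⟨fun i => y.1.f x0 i, memℓp_gen' (hbd y)⟩
      map_add' := fun y z => by ext i; rfl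
      map_smul' := fun c y => by ext i; rfl }
  have hJ0 : ∀ y, ‖J0 y‖ ≤ √8 * ‖y‖ := by
    intro y
    refine lp.norm_le_of_forall_sum_le (by norm_num) (by positivity) fun s => ?_
    refine (hbd y s).trans (le_of_eq ?_)
    rw [h2, Real.rpow_two, mul_pow, Real.sq_sqrt (by norm_num)]
    rfl
  refine ⟨J0.mkContinuous (√8) hJ0, fun y => ?_⟩
  show ‖y.1‖ ≤ ‖J0 y‖
  refine upper y.1 y.2 (norm_nonneg _) fun n => ?_
  have := lp.sum_rpow_le_norm_rpow (p := 2) (by norm_num) (J0 y) (range n)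
  rw [h2, Real.rpow_two] at this
  refine le_trans (le_of_eq ?_) this
  refine sum_congr rfl fun i _ => ?_
  rw [Real.rpow_two]
  rfl

/-- All operators into `Y` attain their norms. -/
theorem attains_Y (T : (Esp 𝕜 × 𝕜) →L[𝕜] Y 𝕜) : ∃ z : Esp 𝕜 × 𝕜, ‖z‖ = 1 ∧ ‖T z‖ = ‖T‖ := by
  obtain ⟨J, hJ⟩ := exists_J (𝕜 := 𝕜)
  refine attains T fun ε hε => ?_
  obtain ⟨M, η, hη, H⟩ := small_of_init
    (J.comp (T.comp (ContinuousLinearMap.inl 𝕜 (Esp 𝕜) 𝕜))) (C := 2) (by norm_num) hε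
  refine ⟨M, η, hη, fun k hk hk' => ?_⟩
  exact (hJ _).trans (H k hk hk')

end

end Pool.Agent.Q178.WM
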